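import Pool.Agent.Work.MP_db9399_en.DEF
import Pool.Agent.Work.MP_db9399_sg.Interface

/-!
# MP_db9399, ENGN: the random objects (helper89)

As in `MP_db9399_en`, with optional own colours `c : V → Option (Fin P)` on `O`, frozen vertices and
exits at all active vertices outside `O`.
-/

set_option autoImplicit false

namespace Pool.Agent.Work.MP_db9399_eg

open Finset Classical
open Pool.Agent.Work.MP_db9399_all (nb)
open Pool.Agent.Work.MP_db9399_sg (tkN tksN fzN resN)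
open Pool.Agent.Work.MP_db9399_en

universe u

section Defs

variable {V : Type u} [Fintype V] {P M : ℕ}

variable (O : Finset V) (c : V → Option (Fin P)) (N : Fin P → V → V) (S : SimpleGraph V)
  (Km : Finset V) (lab : Fin P → V → Bool) (ix : V × V → Fin P → ℕ) (K0 m1 : ℕ)

/-- neither own colour nor frozen -/
def nz (b : Fin P) (v : V) : Prop := c v ≠ some b ∧ v ∉ fzN O c N b

/-- `v`, not a token, is active in colour `b` on the side `s` -/
def ac (b : Fin P) (v : V) (s : Bool) (ω : Co V P → Fin M) : Prop :=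
  nz O c N b v ∧ v ∉ tkN O c N b ∧ ¬ dbl N Km K0 m1 b v ω ∧
    if decide (v = rp N b v) = s then cn N b v ω < hh N Km b v
      else hh N Km b v ≤ cn N b v ω ∧ cn N b v ω < 2 * hh N Km b v

/-- the side `s` of colour `b` -/
noncomputable def XX (b : Fin P) (s : Bool) (ω : Co V P → Fin M) : Finset V :=
  {v | v ∈ tksN O c N lab b s ∨ ac O c N Km K0 m1 b v s ω}

/-- the reserve graph of colour `b` -/
def SS (b : Fin P) (u v : V) (ω : Co V P → Fin M) : Prop :=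
  S.Adj u v ∧ (((u ∈ tkN O c N b ∨ v ∈ tkN O c N b) ∧ pk ix K0 m1 b u v ω) ∨
    (u ∉ tkN O c N b ∧ v ∉ tkN O c N b ∧ gn K0 m1 u v ω ∧ ¬ bl N b u v ω))

/-- the exits of the side `s` -/
noncomputable def MX (s : Bool) (ω : Co V P → Fin M) : Finset V :=
  univ.filter fun v => v ∈ MM Km K0 m1 s ω ∨ v ∉ O

/-- the world of one colour -/
structure E1 (G S : SimpleGraph V) (r K0 T0 : ℕ) (ρ : ℝ) (O : Finset V) (c : V → Option (Fin P))
    (N : Fin P → V → V) (A K Km : Finset V) (b : Fin P) : Prop where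
  hSG : S ≤ G
  OA : O ⊆ A
  dS1 : ∀ v ∈ A, r ≤ (nb S v).card
  dS2 : ∀ v, (nb S v).card ≤ r + K0
  cO : ∀ v, c v ≠ none → v ∈ O
  NN : ∀ b v, N b (N b v) = v
  NG : ∀ b v, N b v ≠ v → G.Adj v (N b v)
  NS : ∀ b' v, ¬ S.Adj v (N b' v)
  Na : ∀ v, N b v ≠ v → v ∈ A
  tk2 : ∀ v, ((nb S v).filter fun w => w ∈ tkN O c N b).card ≤ T0
  ow : ∀ v, ((nb S v).filter fun w => c w = some b ∨ w ∈ fzN O c N b).card ≤ T0
  KO : Km ⊆ O
  K4 : ∀ v ∈ A, v ∉ K → ρ * r ≤ (((nb S v).filter fun w => w ∈ Km ∨ w ∉ O).card : ℝ)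
  K5 : ∀ v ∈ A, (r : ℝ) / 4 ≤ (((nb S v).filter fun w => w ∉ K).card : ℝ)

end Defs

section Facts

variable {V : Type u} [Fintype V] {P M : ℕ} {G S : SimpleGraph V} {d r K0 T0 m1 : ℕ} {ρ : ℝ}
  {O : Finset V} {c : V → Option (Fin P)} {N : Fin P → V → V} {A K Km : Finset V}
  {lab : Fin P → V → Bool} {ix : V × V → Fin P → ℕ} {ω : Co V P → Fin M}

omit [Fintype V] in
theorem mem_tk {b : Fin P} {v : V} :
    v ∈ tkN O c N b ↔ v ∈ O ∧ c v ≠ some b ∧ (N b v = v ∨ c (N b v) = some b) := by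
  rw [tkN, mem_filter]

omit [Fintype V] in
theorem mem_tks {b : Fin P} {s : Bool} {v : V} :
    v ∈ tksN O c N lab b s ↔ v ∈ tkN O c N b ∧ lab b v = s := by
  rw [tksN, mem_filter]

theorem mem_fz {b : Fin P} {v : V} :
    v ∈ fzN O c N b ↔ v ∉ O ∧ (N b v = v ∨ c (N b v) = some b) := by
  rw [fzN, mem_filter]
  exact ⟨fun h => h.2, fun h => ⟨mem_univ _, h⟩⟩

theorem mem_XX {b : Fin P} {s : Bool} {v : V} :
    v ∈ XX O c N Km lab K0 m1 b s ω ↔ v ∈ tksN O c N lab b s ∨ ac O c N Km K0 m1 b v s ω := by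
  simp only [XX, mem_filter, mem_univ, true_and]

theorem mem_MX {v : V} {s : Bool} :
    v ∈ MX O Km K0 m1 s ω ↔ v ∈ MM Km K0 m1 s ω ∨ v ∉ O := by
  rw [MX, mem_filter]
  exact ⟨fun h => h.2, fun h => ⟨mem_univ _, h⟩⟩

theorem not_tk {b : Fin P} {v : V} (hc : nz O c N b v) (h : v ∉ tkN O c N b) :
    N b v ≠ v ∧ c (N b v) ≠ some b := by
  obtain ⟨h1, h2⟩ := hc
  rw [mem_tk] at h
  rw [mem_fz] at h2
  by_cases hO : v ∈ O
  · refine ⟨fun h' => h ⟨hO, h1, Or.inl h'⟩, fun h' => h ⟨hO, h1, Or.inr h'⟩⟩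
  · refine ⟨fun h' => h2 ⟨hO, Or.inl h'⟩, fun h' => h2 ⟨hO, Or.inr h'⟩⟩

theorem nz_of {b : Fin P} {v : V} (h1 : N b v ≠ v) (h2 : c v ≠ some b) (h3 : c (N b v) ≠ some b) :
    nz O c N b v ∧ v ∉ tkN O c N b := by
  refine ⟨⟨h2, ?_⟩, ?_⟩
  · rw [mem_fz]
    rintro ⟨_, h | h⟩
    · exact h1 h
    · exact h3 h
  · rw [mem_tk]
    rintro ⟨_, _, h | h⟩
    · exact h1 h
    · exact h3 h

theorem nz_N (hN : ∀ b v, N b (N b v) = v) {b : Fin P} {v : V} (hc : nz O c N b v)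
    (h : v ∉ tkN O c N b) : nz O c N b (N b v) ∧ N b v ∉ tkN O c N b := by
  obtain ⟨h1, h2⟩ := not_tk hc h
  refine nz_of ?_ h2 ?_
  · rw [hN]
    exact h1.symm
  · rw [hN]
    exact hc.1

theorem tk_N (hN : ∀ b v, N b (N b v) = v) {b : Fin P} {v : V} (hc : nz O c N b v)
    (h : v ∉ tkN O c N b) : N b v ∉ tkN O c N b := (nz_N hN hc h).2

theorem tk_nz {b : Fin P} {v : V} (h : v ∈ tkN O c N b) : nz O c N b v := by
  rw [mem_tk] at h
  refine ⟨h.2.1, fun h' => ?_⟩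
  rw [mem_fz] at h'
  exact h'.1 h.1

theorem XX_tk {b : Fin P} {s : Bool} {v : V} (hv : v ∈ XX O c N Km lab K0 m1 b s ω)
    (h : v ∈ tkN O c N b) : v ∈ tksN O c N lab b s := by
  rcases mem_XX.1 hv with h1 | h1
  · exact h1
  · exact absurd h h1.2.1

theorem XX_ac {b : Fin P} {s : Bool} {v : V} (hv : v ∈ XX O c N Km lab K0 m1 b s ω)
    (h : v ∉ tkN O c N b) : ac O c N Km K0 m1 b v s ω := by
  rcases mem_XX.1 hv with h1 | h1
  · exact absurd (mem_tks.1 h1).1 h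
  · exact h1

theorem XX_c {b : Fin P} {s : Bool} {v : V} (hv : v ∈ XX O c N Km lab K0 m1 b s ω) :
    nz O c N b v := by
  rcases mem_XX.1 hv with h1 | h1
  · exact tk_nz (mem_tks.1 h1).1
  · exact h1.1

theorem XX_A {b : Fin P} (hE : E1 G S r K0 T0 ρ O c N A K Km b) {s : Bool} {v : V}
    (hv : v ∈ XX O c N Km lab K0 m1 b s ω) : v ∈ A := by
  by_cases h : v ∈ tkN O c N b
  · exact hE.OA (mem_tk.1 h).1
  · exact hE.Na v (not_tk (XX_c hv) h).1

theorem ac_cn {b : Fin P} {s : Bool} {v : V} (h : ac O c N Km K0 m1 b v s ω) :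
    cn N b v ω < 8 := by
  have h1 := h.2.2.2
  have h2 : hh N Km b v ≤ 4 := by
    rw [hh]
    split_ifs <;> norm_num
  split_ifs at h1 <;> omega

theorem XX_disj (b : Fin P) (s : Bool) :
    Disjoint (XX O c N Km lab K0 m1 b s ω) (XX O c N Km lab K0 m1 b (!s) ω) := by
  rw [Finset.disjoint_left]
  intro v h1 h2
  by_cases h : v ∈ tkN O c N b
  · have h3 := (mem_tks.1 (XX_tk h1 h)).2
    have h4 := (mem_tks.1 (XX_tk h2 h)).2
    rw [h3] at h4
    cases s <;> simp at h4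
  · have h3 := (XX_ac h1 h).2.2.2
    have h4 := (XX_ac h2 h).2.2.2
    by_cases hd : decide (v = rp N b v) = s
    · rw [if_pos hd] at h3
      rw [if_neg (by rw [hd]; cases s <;> simp)] at h4
      omega
    · rw [if_neg hd] at h3
      rw [if_pos (by cases s <;> simpa using hd)] at h4
      omega

theorem XX_N (hN : ∀ b v, N b (N b v) = v) {b : Fin P} {s : Bool} {v : V}
    (hv : v ∈ XX O c N Km lab K0 m1 b s ω) (h : v ∉ tkN O c N b) :
    N b v ∈ XX O c N Km lab K0 m1 b (!s) ω ∧ N b v ∉ tkN O c N b := by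
  obtain ⟨h1, h2, h3, h4⟩ := XX_ac hv h
  obtain ⟨h5, h6⟩ := not_tk h1 h
  obtain ⟨h8', h7⟩ := nz_N hN h1 h
  refine ⟨mem_XX.2 (Or.inr ⟨h8', h7, ?_, ?_⟩), h7⟩
  · intro hd
    refine h3 ⟨?_, hd.1, ?_, hd.2.2.1⟩
    · rw [← hN b v]
      exact hd.2.1
    · have := hd.2.2.2
      rwa [hN] at this
  · have e1 : hh N Km b (N b v) = hh N Km b v := by
      rw [hh, hh]
      have : spc N Km b (N b v) ↔ spc N Km b v := by
        rw [spc, spc, hN]
        exact and_comm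
      by_cases hs : spc N Km b v
      · rw [if_pos hs, if_pos (this.2 hs)]
      · rw [if_neg hs, if_neg (fun h' => hs (this.1 h'))]
    have e2 : cn N b (N b v) ω = cn N b v ω := by
      rw [cn, cn, rp_N hN]
    have e3 : decide (N b v = rp N b (N b v)) = !decide (v = rp N b v) := by
      rw [rp_N hN]
      rcases rp_mem N b v with h8 | h8
      · rw [h8]
        simp [h5]
      · rw [h8]
        simp
        exact fun h' => h5 h'.symm
    rw [e1, e2, e3]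
    by_cases hd : decide (v = rp N b v) = s
    · rw [if_pos hd] at h4
      rw [if_pos (by rw [hd])]
      exact h4
    · rw [if_neg hd] at h4
      rw [if_neg (by
        intro h'
        apply hd
        cases s <;> simpa using h')]
      exact h4

theorem XX_out (hN : ∀ b v, N b (N b v) = v) {b : Fin P} {v : V} (hc : nz O c N b v)
    (h1 : v ∉ XX O c N Km lab K0 m1 b true ω) (h2 : v ∉ XX O c N Km lab K0 m1 b false ω) :
    N b v ≠ v ∧ nz O c N b (N b v) ∧ N b v ∉ XX O c N Km lab K0 m1 b true ω ∧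
      N b v ∉ XX O c N Km lab K0 m1 b false ω := by
  have h3 : v ∉ tkN O c N b := by
    intro h
    cases hl : lab b v
    · exact h2 (mem_XX.2 (Or.inl (mem_tks.2 ⟨h, hl⟩)))
    · exact h1 (mem_XX.2 (Or.inl (mem_tks.2 ⟨h, hl⟩)))
  obtain ⟨h4, h5⟩ := not_tk hc h3
  obtain ⟨h7, h6⟩ := nz_N hN hc h3
  refine ⟨h4, h7, fun h => ?_, fun h => ?_⟩
  · have := (XX_N hN h h6).1
    rw [hN] at this
    exact h2 this
  · have := (XX_N hN h h6).1
    rw [hN] at this
    exact h1 this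

theorem SS_comm (b : Fin P) (u v : V) :
    SS O c N S ix K0 m1 b u v ω ↔ SS O c N S ix K0 m1 b v u ω := by
  have e1 : eg u v ω = eg v u ω := by rw [eg, eg, ep_comm]
  have e2 : bl N b u v ω ↔ bl N b v u ω := by
    simp only [bl]
    constructor <;>
    · rintro ⟨b', h1, h2, h3⟩
      exact ⟨b', h1, h3, h2⟩
  simp only [SS, pk, gn, e1, e2, ep_comm u v, S.adj_comm u v]
  constructor <;>
  · rintro ⟨h1, h2⟩
    refine ⟨h1, ?_⟩
    rcases h2 with h2 | h2
    · exact Or.inl ⟨h2.1.symm, h2.2⟩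
    · exact Or.inr ⟨h2.2.1, h2.1, h2.2.2⟩

/-- the reserve edges of different colours are different -/
theorem SS_inj {S' : SimpleGraph V}
    (hix : ∀ u v b b', (u ∈ tkN O c N b ∨ v ∈ tkN O c N b) →
      (u ∈ tkN O c N b' ∨ v ∈ tkN O c N b') → ix (ep u v) b = ix (ep u v) b' → b = b')
    {b b' : Fin P} {s' t' : Bool} {u v : V}
    (hu' : u ∈ XX O c N Km lab K0 m1 b' s' ω) (hv' : v ∈ XX O c N Km lab K0 m1 b' t' ω)
    (h : SS O c N S ix K0 m1 b u v ω) (h' : SS O c N S' ix K0 m1 b' u v ω) : b = b' := by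
  obtain ⟨_, h⟩ := h
  obtain ⟨_, h'⟩ := h'
  rcases h with ⟨h1, h2⟩ | ⟨h1, h2, h3, h4⟩
  · rcases h' with ⟨h1', h2'⟩ | ⟨_, _, h3', _⟩
    · exact hix u v b b' h1 h1' (h2.2.symm.trans h2'.2)
    · exfalso
      have := h2.1
      rw [gn] at h3'
      omega
  · rcases h' with ⟨_, h2'⟩ | ⟨h1', h2', _, _⟩
    · exfalso
      have := h2'.1
      rw [gn] at h3
      omega
    · by_contra hne
      exact h4 ⟨b', fun e => hne e.symm, ac_cn (XX_ac hu' h1'), ac_cn (XX_ac hv' h2')⟩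

/-- two adjacent star vertices are joined by a kept edge -/
theorem MM_kept (hK3 : ∀ v ∈ Km, ∀ w ∈ Km, G.Adj v w → ∃ b, N b v = w ∧ c v ≠ some b ∧
      c w ≠ some b) {v w : V}
    (hv : v ∈ MM Km K0 m1 true ω ∪ MM Km K0 m1 false ω)
    (hw : w ∈ MM Km K0 m1 true ω ∪ MM Km K0 m1 false ω) (hvw : G.Adj v w) :
    ∃ b, N b v = w ∧ nz O c N b v ∧ v ∉ XX O c N Km lab K0 m1 b true ω ∧
      v ∉ XX O c N Km lab K0 m1 b false ω := by
  have key : ∀ x, x ∈ MM Km K0 m1 true ω ∪ MM Km K0 m1 false ω →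
      x ∈ Km ∧ st x ω / (K0 * m1) < 2 := by
    intro x hx
    rcases mem_union.1 hx with hx | hx
    · rw [mem_MM] at hx
      refine ⟨hx.1, ?_⟩
      rw [hx.2]
      norm_num
    · rw [mem_MM] at hx
      refine ⟨hx.1, ?_⟩
      rw [hx.2]
      norm_num
  obtain ⟨v1, v2⟩ := key v hv
  obtain ⟨w1, w2⟩ := key w hw
  obtain ⟨b, h1, h2, h3⟩ := hK3 v v1 w w1 hvw
  have h5 : N b v ≠ v := by
    rw [h1]
    exact hvw.ne'
  obtain ⟨h6, h4⟩ := nz_of (O := O) h5 h2 (by rw [h1]; exact h3)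
  refine ⟨b, h1, h6, fun hx => ?_, fun hx => ?_⟩ <;>
  · refine (XX_ac hx h4).2.2.1 ⟨v1, ?_, v2, ?_⟩
    · rw [h1]
      exact w1
    · rw [h1]
      exact w2

end Facts

end Pool.Agent.Work.MP_db9399_eg
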