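import Pool.Agent.Work.MP_db9399_eg.FIN

/-!
# MP_db9399, ENGN: the local lemma over all classes (helper89)
-/

set_option autoImplicit false

namespace Pool.Agent.Work.MP_db9399_eg

open Finset Classical
open Pool.Agent.Work.MP_db9399_all (nb pr DepOnI)
open Pool.Agent.Work.MP_db9399_sg (tkN tksN fzN resN mss AllN KmN)
open Pool.Agent.Work.MP_db9399_en

universe u

attribute [-instance] instDecidableEqSum

/-- the mean of the load -/
theorem load_mean {P : ℕ} {J : Type u} [Fintype J] (cl : Fin P → J) {K0 L M : ℕ} {ρ δ ε T : ℝ}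
    (hρ : 0 < ρ) (hε : 0 < ε) (hδ : 0 ≤ δ) (hL : (1 : ℝ) ≤ L) (hM : (0 : ℝ) < M)
    (hJ : Fintype.card J ≤ K0) (hK : 1 ≤ K0) (Dt : J → ℝ) (hΦ : ∀ j, 0 ≤ T / Dt j)
    (Q : Fin P → ℝ) (w : ℝ) (hw : Fintype.card J * w ≤ 1 / 40000 * (ρ * ε))
    (hQ : ∀ j, ∑ b with cl b = j, Q b ≤ 1 / ρ * (900 * (M / 3 * w +
      200 * L * δ * (T / Dt j) * P) + 11000 * (δ * (T / Dt j) * P)))
    (u5 : ∀ j, 3 * 10 ^ 7 * (K0 * (L * δ * (T / Dt j) * P)) ≤ M * ρ * ε) :
    8 / M * ∑ b, Q b ≤ ε / 8 := by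
  have h1 : ∑ b, Q b = ∑ j : J, ∑ b with cl b = j, Q b := by
    rw [← sum_fiberwise_of_maps_to (g := cl) (t := (univ : Finset J)) fun b _ => mem_univ _]
  have hκ : (Fintype.card J : ℝ) ≤ K0 := by exact_mod_cast hJ
  have hκ0 : (0 : ℝ) ≤ Fintype.card J := Nat.cast_nonneg _
  have hK0 : (1 : ℝ) ≤ K0 := by exact_mod_cast hK
  have h2 : ∀ j, Fintype.card J * ∑ b with cl b = j, Q b ≤ 139 / 10000 * (M * ε) := by
    intro j
    have g1 := mul_le_mul_of_nonneg_left (hQ j) hκ0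
    refine g1.trans ?_
    obtain ⟨y, hy⟩ : ∃ y : ℝ, y = L * δ * (T / Dt j) * P := ⟨_, rfl⟩
    have hy0 : 0 ≤ y := by
      rw [hy]
      have := hΦ j
      positivity
    have g2 : δ * (T / Dt j) * P ≤ y := by
      rw [hy]
      have h0 : 0 ≤ δ * (T / Dt j) * P := by
        have := hΦ j
        positivity
      nlinarith
    have g3 := u5 j
    rw [← hy] at g3
    have g4 : 900 * ((M : ℝ) / 3 * w + 200 * L * δ * (T / Dt j) * P) +
        11000 * (δ * (T / Dt j) * P) ≤ 300 * M * w + 191000 * y := by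
      have e : 200 * L * δ * (T / Dt j) * P = 200 * y := by
        rw [hy]
        ring
      rw [e]
      linarith
    have g5 : (Fintype.card J : ℝ) * (1 / ρ * (900 * ((M : ℝ) / 3 * w +
        200 * L * δ * (T / Dt j) * P) + 11000 * (δ * (T / Dt j) * P))) ≤
        1 / ρ * (300 * M * (Fintype.card J * w) + 191000 * (K0 * y)) := by
      have g6 : (Fintype.card J : ℝ) * y ≤ K0 * y := mul_le_mul_of_nonneg_right hκ hy0
      have g7 : (Fintype.card J : ℝ) * (900 * ((M : ℝ) / 3 * w +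
        200 * L * δ * (T / Dt j) * P) + 11000 * (δ * (T / Dt j) * P)) ≤
          300 * M * (Fintype.card J * w) + 191000 * (K0 * y) := by
        have g8 := mul_le_mul_of_nonneg_left g4 hκ0
        nlinarith
      calc (Fintype.card J : ℝ) * (1 / ρ * (900 * ((M : ℝ) / 3 * w +
        200 * L * δ * (T / Dt j) * P) + 11000 * (δ * (T / Dt j) * P))) =
          1 / ρ * ((Fintype.card J : ℝ) * (900 * ((M : ℝ) / 3 * w +
        200 * L * δ * (T / Dt j) * P) + 11000 * (δ * (T / Dt j) * P))) := by ring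
        _ ≤ _ := mul_le_mul_of_nonneg_left g7 (by positivity)
    refine g5.trans ?_
    have g9 : 300 * M * ((Fintype.card J : ℝ) * w) ≤ 300 * M * (1 / 40000 * (ρ * ε)) :=
      mul_le_mul_of_nonneg_left hw (by positivity)
    have g10 : 300 * M * ((Fintype.card J : ℝ) * w) + 191000 * (K0 * y) ≤
        139 / 10000 * (M * ε) * ρ := by
      have : 0 ≤ (M : ℝ) * ρ * ε := by positivity
      nlinarith
    rw [one_div, inv_mul_le_iff₀ hρ, mul_comm ρ]
    exact g10
  have h3 : ∑ b, Q b ≤ 139 / 10000 * (M * ε) := by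
    rw [h1]
    by_cases hc : Fintype.card J = 0
    · have : IsEmpty J := Fintype.card_eq_zero_iff.1 hc
      rw [univ_eq_empty, sum_empty]
      positivity
    · have hc0 : (0 : ℝ) < Fintype.card J := by
        have : 0 < Fintype.card J := Nat.pos_of_ne_zero hc
        exact_mod_cast this
      have g1 : ∀ j, ∑ b with cl b = j, Q b ≤ 139 / 10000 * (M * ε) / Fintype.card J := by
        intro j
        rw [le_div_iff₀ hc0, mul_comm]
        exact h2 j
      refine (sum_le_card_nsmul _ _ _ fun j _ => g1 j).trans (le_of_eq ?_)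
      rw [nsmul_eq_mul, card_univ]
      field_simp
  have h4 : 8 / (M : ℝ) * ∑ b, Q b ≤ 8 / M * (139 / 10000 * (M * ε)) :=
    mul_le_mul_of_nonneg_left h3 (by positivity)
  refine h4.trans ?_
  have h5 : 8 / (M : ℝ) * (139 / 10000 * (M * ε)) = 1112 / 10000 * ε := by
    field_simp
    norm_num
  rw [h5]
  linarith

/-- the number of nodes which contain a coin -/
theorem node_cnt {V : Type u} [Fintype V] {P : ℕ} {I J W : Type u} [Fintype W]
    {N : Fin P → V → V} (hN : ∀ b v, N b (N b v) = v) (cl : Fin P → J) (nn : J → V → Option I)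
    (B : J → Finset (Fin P)) (X : J → I → Finset V) (hB : ∀ j b, b ∈ B j ↔ cl b = j)
    (hX : ∀ j i v, v ∈ X j i ↔ nn j v = some i) (wj : W → J) (wi : W → I)
    (hw : ∀ w w', wj w = wj w' → wi w = wi w' → w = w') (y : Co V P) :
    #(univ.filter fun w => y ∈ Qn N (B (wj w)) (X (wj w) (wi w))) ≤ 2 := by
  by_cases h : ∃ b x, y = Sum.inl (b, x)
  · obtain ⟨b, x, rfl⟩ := h
    refine le_trans ?_ (card_le_two (a := nn (cl b) x) (b := nn (cl b) (N b x)))
    refine card_le_card_of_injOn (fun w => some (wi w)) (fun w hw' => ?_) fun w hw1 w' hw2 h => ?_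
    · rw [mem_coe, mem_filter] at hw'
      obtain ⟨h1, h2⟩ := Qn_mem hN hw'.2
      rw [hB] at h1
      rw [hX, hX, ← h1] at h2
      rw [mem_coe, mem_insert, mem_singleton]
      exact h2.imp (fun h => h.symm) (fun h => h.symm)
    · rw [mem_coe, mem_filter] at hw1 hw2
      have h1 := (Qn_mem hN hw1.2).1
      have h2 := (Qn_mem hN hw2.2).1
      rw [hB] at h1 h2
      exact hw w w' (h1.symm.trans h2) (Option.some.inj h)
  · refine le_trans (le_of_eq (card_eq_zero.2 (filter_eq_empty_iff.2 fun w _ hw' => ?_)))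
      (Nat.zero_le _)
    exact h (Qn_inl hw')

/-- the output of ENGN for given numbers -/
def Stmt_ENGM : Prop := ∃ d₀ : ℕ,
    ∀ {V I J : Type u} [Fintype V] [Fintype I] [Fintype J] (P : ℕ) (G : SimpleGraph V)
      (S : J → SimpleGraph V) (cl : Fin P → J) (O : Finset V) (A : J → Finset V)
      (nn : J → V → Option I) (d K0 T0 L : ℕ) (r : J → ℕ) (ρ ε : ℝ)
      (c : V → Option (Fin P)) (N : Fin P → V → V) (K Km : Finset V) (lab : Fin P → V → Bool)
      (θ θ' : ℕ → ℝ),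
      AllN G S cl O A nn d K0 T0 r c N → KmN G S O A r ρ c N K Km → Wts L θ → Wts L θ' →
      d₀ ≤ d → 1 ≤ K0 → Fintype.card J ≤ K0 → 1 ≤ T0 → ρ ≤ 1 → 0 < ε → ε ≤ 1 →
      (∀ j, (d : ℝ) ^ (1 - 1 / 2500 : ℝ) ≤ r j) →
      (K0 : ℝ) ≤ (d : ℝ) ^ (1 / 2500 : ℝ) → (T0 : ℝ) ≤ (d : ℝ) ^ (1 / 2500 : ℝ) →
      (L : ℝ) ≤ (d : ℝ) ^ (1 / 2500 : ℝ) →
      (d : ℝ) ^ (-(1 / 2500) : ℝ) ≤ ρ → (d : ℝ) ^ (-(1 / 2500) : ℝ) ≤ ε →
      (∀ j v, (Fintype.card J : ℝ) *
        ∑ b with cl b = j, resN (S j) (r j) L θ θ' O c N lab b v ≤ 1 / 40000 * (ρ * ε)) →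
      ∃ (F : Fin P → V → V) (z Ξ : ℝ), (∀ j, z + 1 ≤ (d : ℝ) ^ (-(1 / 2500) : ℝ) * r j) ∧
        Ξ ≤ (d : ℝ) ^ (1 - 1 / 2500 : ℝ) ∧
        OutE G S cl O nn ε z Ξ ((d : ℝ) ^ (1 / 250 : ℝ)) c N Km F

theorem stmt_ENGM (hNUM : Stmt_NUM2) : Stmt_ENGM.{u} := by
  obtain ⟨d₀, hd₀⟩ := hNUM
  refine ⟨max d₀ 1, ?_⟩
  intro V I J _ _ _ P G S cl O A nn d K0 T0 L r ρ ε c N K Km lab θ θ' hA hK hθ hθ' hd hK1 hJ hT
    hρ1 hε hε1 hr hK' hT' hL' hρ hερ hres
  have hd1 : 1 ≤ d := (le_max_right _ _).trans hd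
  have hdr : (1 : ℝ) ≤ d := by exact_mod_cast hd1
  have hL1 : 1 ≤ L := by
    by_contra h
    have h0 : L = 0 := by omega
    have h1 := hθ.zero 0 (by omega)
    rw [hθ.w0] at h1
    exact one_ne_zero h1
  have hρ0 : 0 < ρ := lt_of_lt_of_le (Real.rpow_pos_of_pos (by linarith) _) hρ
  obtain ⟨m1, M, δ, ξ, hM, hm, hξ0, hξn, hΞ, hfin, hcl⟩ :=
    hd₀ d K0 T0 L ρ ε ((le_max_left _ _).trans hd) hK1 hT hL1 hρ1 hε hε1 hK' hT' hL' hρ hερ
  have hM8 : 8 ≤ M := by
    have h1 : 1 * 2 ≤ K0 * m1 := Nat.mul_le_mul hK1 hm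
    omega
  have hM0 : 0 < M := by omega
  have hMr : (0 : ℝ) < M := by exact_mod_cast hM0
  have hK0r : (1 : ℝ) ≤ K0 := by exact_mod_cast hK1
  choose D Dt hj using fun j => hcl P (r j) hA.Pd (hA.rd j) (hr j)
  have hn := fun j => (hj j).1
  have hx := fun j => (hj j).2.1
  have u5 := fun j => (hj j).2.2.1
  have h3 := fun j => (hj j).2.2.2.1
  have hz := fun j => (hj j).2.2.2.2.1
  have hB := fun j => (hj j).2.2.2.2.2.1
  have hF := fun j => (hj j).2.2.2.2.2.2.1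
  have hQB := fun j => (hj j).2.2.2.2.2.2.2.1
  have hxi := fun j => (hj j).2.2.2.2.2.2.2.2
  have hE := e1_of hA hK
  obtain ⟨_, _, _, hxd, _, _, _, _, _, _, _, _, _, _, _, _, hx7⟩ :=
    hcl P d hA.Pd le_rfl (by
      have h1 : (d : ℝ) ^ (1 - 1 / 2500 : ℝ) ≤ (d : ℝ) ^ (1 : ℝ) :=
        Real.rpow_le_rpow_of_exponent_le hdr (by norm_num)
      rwa [Real.rpow_one] at h1)
  have hδ0 : 0 < δ := by
    have h := hxd.u1
    by_contra hc
    have h1 : δ * (d : ℝ) ≤ 0 := mul_nonpos_of_nonpos_of_nonneg (not_lt.1 hc) (by linarith)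
    have h2 : (1 : ℝ) ≤ T0 := by exact_mod_cast hT
    linarith
  obtain ⟨ix, hix⟩ : ∃ ix : V × V → Fin P → ℕ, ix = ixf O c N := ⟨_, rfl⟩
  have hi : ∀ b, ∀ u v, (u ∈ tkN O c N b ∨ v ∈ tkN O c N b) → ix (ep u v) b < 2 * K0 := by
    intro b u v h
    rw [hix]
    exact ixf_lt hA.tk1 (ep_or h)
  have hinj : ∀ u v b b', (u ∈ tkN O c N b ∨ v ∈ tkN O c N b) →
      (u ∈ tkN O c N b' ∨ v ∈ tkN O c N b') → ix (ep u v) b = ix (ep u v) b' → b = b' := by
    intro u v b b' h h' he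
    rw [hix] at he
    exact ixf_inj (ep_or h) (ep_or h') he
  -- the loads
  obtain ⟨Q, hQ⟩ : ∃ Q : Fin P → V → ℝ, ∀ b v, Q b v = Qf O c N (S (cl b)) lab (r (cl b)) L ρ δ M
      (6 * T0 / Dt (cl b)) θ θ' b v := ⟨_, fun _ _ => rfl⟩
  have hQ0 : ∀ b v, 0 ≤ Q b v := fun b v => by
    rw [hQ]
    exact (Qf_bd (hE b) (hn _) hθ hθ' v).1
  have hQ1 : ∀ b v, Q b v ≤ ε / (32 * ξ) := fun b v => by
    rw [hQ]
    refine (Qf_bd (hE b) (hn _) hθ hθ' v).2.trans ?_
    rw [le_div_iff₀ (by positivity)]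
    linarith [hQB (cl b)]
  have hQm : ∀ v, 8 / M * ∑ b, Q b v ≤ ε / 8 := by
    intro v
    by_cases hc : Fintype.card J = 0
    · have hJe : IsEmpty J := Fintype.card_eq_zero_iff.1 hc
      have : ∑ b, Q b v = 0 := sum_eq_zero fun b _ => (hJe.false (cl b)).elim
      rw [this, mul_zero]
      positivity
    have hc0 : (0 : ℝ) < Fintype.card J := by
      have : 0 < Fintype.card J := Nat.pos_of_ne_zero hc
      exact_mod_cast this
    refine load_mean cl hρ0 hε hδ0.le (by exact_mod_cast hL1) hMr hJ hK1 Dt (T := 6 * T0)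
      (fun j => ?_) (fun b => Q b v) (1 / 40000 * (ρ * ε) / Fintype.card J) ?_ (fun j => ?_) u5
    · have := (hn j).Dt0
      positivity
    · rw [mul_div_cancel₀ _ hc0.ne']
    · have h1 := Qf_cls (univ.filter fun b => cl b = j) (S := S j) (r := r j) (D := D j)
        (Dt := Dt j) (Ac := A j) (O := O) (c := c) (N := N) (lab := lab) (θ := θ) (θ' := θ')
        (fun b hb => by
          have := hE b
          rw [(mem_filter.1 hb).2] at this
          exact this) (hn j) (w := 1 / 40000 * (ρ * ε) / Fintype.card J) (by positivity)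
        (fun v => by
          rw [le_div_iff₀ hc0, mul_comm]
          exact hres j v) v
      refine le_trans (le_of_eq (sum_congr rfl fun b hb => ?_)) h1
      rw [hQ, (mem_filter.1 hb).2]
  -- numbers
  obtain ⟨q, hq⟩ : ∃ q : ℝ, q = Real.exp (-ξ) := ⟨_, rfl⟩
  have hq0 : 0 < q := by
    rw [hq]
    exact Real.exp_pos _
  obtain ⟨Z, hZ⟩ : ∃ Z : ℝ, Z = K0 * d + 1 := ⟨_, rfl⟩
  have hdZ : (d : ℝ) + 1 ≤ Z := by
    rw [hZ]
    nlinarith
  have hPZ : (P : ℝ) + 1 ≤ 2 * Z := by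
    have : (P : ℝ) ≤ 2 * d := by exact_mod_cast hA.Pd
    linarith
  have hP0 : (0 : ℝ) ≤ P := Nat.cast_nonneg _
  have hZ1 : 1 ≤ Z := by linarith
  have hLZ : (L : ℝ) ≤ Z := by
    have h1 : (d : ℝ) ^ (1 / 2500 : ℝ) ≤ (d : ℝ) ^ (1 : ℝ) :=
      Real.rpow_le_rpow_of_exponent_le hdr (by norm_num)
    rw [Real.rpow_one] at h1
    linarith
  have hL0 : (0 : ℝ) ≤ L := Nat.cast_nonneg _
  -- the event at a vertex
  obtain ⟨Fv, hFv⟩ : ∃ F : V → (Fin P → Prop) → Prop, F = fun v s => ∃ X : Finset (Fin P),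
      (∀ b, b ∈ X ↔ s b) ∧ (#X : ℝ) ≤ 48 * d / M ∧ ∑ b ∈ X, Q b v ≤ ε / 4 := ⟨_, rfl⟩
  have hF' : ∀ (v : V) (ω : Co V P → Fin M), Fv v (fun b => cn N b v ω < 8) ↔
      (#{b | cn N b v ω < 8} : ℝ) ≤ 48 * d / M ∧
        ∑ b with cn N b v ω < 8, Q b v ≤ ε / 4 := by
    intro v ω
    rw [hFv]
    constructor
    · rintro ⟨X, hX, h1, h2⟩
      have : X = univ.filter fun b => cn N b v ω < 8 := by
        ext b
        rw [hX, mem_filter]
        exact ⟨fun h => ⟨mem_univ _, h⟩, fun h => h.2⟩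
      rw [← this]
      exact ⟨h1, h2⟩
    · rintro ⟨h1, h2⟩
      refine ⟨univ.filter fun b => cn N b v ω < 8, fun b => ?_, h1, h2⟩
      rw [mem_filter]
      exact ⟨fun h => h.2, fun h => ⟨mem_univ _, h⟩⟩
  obtain ⟨Gv, hGv⟩ : ∃ Gv : V → (Co V P → Fin M) → Prop, ∀ v ω, Gv v ω ↔ ∀ b,
      GdV O c N (S (cl b)) Km lab ix K0 m1 (r (cl b)) T0 L ρ (D (cl b)) (Dt (cl b)) δ M θ θ'
        (A (cl b)) K v b ω := ⟨fun v ω => ∀ b,
      GdV O c N (S (cl b)) Km lab ix K0 m1 (r (cl b)) T0 L ρ (D (cl b)) (Dt (cl b)) δ M θ θ'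
        (A (cl b)) K v b ω, fun _ _ => Iff.rfl⟩
  have hpv : ∀ v, pr (fun ω : Co V P → Fin M =>
      ¬ (Gv v ω ∧ Fv v fun b => cn N b v ω < 8)) ≤ 122 * Z ^ 2 * q := by
    intro v
    have q1 := pr_not_all (Ω := Co V P → Fin M) (fun b ω =>
      GdV O c N (S (cl b)) Km lab ix K0 m1 (r (cl b)) T0 L ρ (D (cl b)) (Dt (cl b)) δ M θ θ'
        (A (cl b)) K v b ω) (fun b => by
          obtain ⟨x1, x2, x3, x4, x5, x6, x7⟩ := hxi (cl b)
          exact pr_GdV (hE b) (hn (cl b)) (hx (cl b)) hθ hθ' (hi b) x1 x2 x3 x4 x5 x6 x7 v)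
    rw [Fintype.card_fin, ← hq] at q1
    have q2 := ev_v1 (N := N) hM8 (Z := 3 * d) (by linarith) (by
      have : (P : ℝ) ≤ 2 * d := by exact_mod_cast hA.Pd
      linarith) v
    have q3 := ev_v2 (N := N) hM8 (fun b => Q b v) (B := ε / (32 * ξ)) (by positivity) hε
      (fun b => hQ0 b v) (fun b => hQ1 b v) (hQm v) v
    have q4 : Real.exp (-(2 * (3 * (d : ℝ)) / M)) ≤ q := by
      rw [hq]
      refine Real.exp_le_exp.2 (neg_le_neg (hx7.trans ?_))
      refine div_le_div_of_nonneg_right ?_ hMr.le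
      linarith
    have q5 : Real.exp (-(ε / (32 * (ε / (32 * ξ))))) ≤ q := by
      rw [hq]
      refine le_of_eq ?_
      congr 2
      field_simp
    have e1 : 16 * (3 * (d : ℝ)) / M = 48 * d / M := by ring
    rw [e1] at q2
    have q6 : pr (fun ω : Co V P → Fin M => ¬ Fv v fun b => cn N b v ω < 8) ≤ q + q := by
      simp only [hF']
      exact (pr_not_and _ _).trans (add_le_add (q2.trans q4) (q3.trans q5))
    refine (pr_not_and _ _).trans ?_
    simp only [hGv]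
    have h5 : (P : ℝ) * (60 * L * q) ≤ 120 * Z ^ 2 * q := by
      have h6 : (P : ℝ) * L ≤ 2 * Z * Z :=
        mul_le_mul (by linarith) hLZ hL0 (by positivity)
      nlinarith
    have h7 : 1 ≤ Z ^ 2 := one_le_pow₀ hZ1
    nlinarith
  -- the event at a node
  obtain ⟨B, hBd⟩ : ∃ B : J → Finset (Fin P), ∀ j b, b ∈ B j ↔ cl b = j :=
    ⟨fun j => univ.filter fun b => cl b = j, fun j b => by simp⟩
  obtain ⟨X, hX⟩ : ∃ X : J → I → Finset V, ∀ j i, X j i = univ.filter fun v => nn j v = some i :=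
    ⟨_, fun _ _ => rfl⟩
  have hXm : ∀ j i v, v ∈ X j i ↔ nn j v = some i := fun j i v => by
    rw [hX, mem_filter]
    exact ⟨fun h => h.2, fun h => ⟨mem_univ _, h⟩⟩
  have hXc : ∀ j i, (#(X j i) : ℝ) ≤ K0 * d := fun j i => by
    rw [hX]
    exact hA.sz j i
  have hpn : ∀ j i, pr (fun ω : Co V P → Fin M =>
      ¬ ∀ b ∈ B j, (#{w ∈ X j i | cn N b w ω < 8} : ℝ) ≤ 16 * (K0 * d) / M) ≤
      122 * Z ^ 2 * q := by
    intro j i
    have q1 := pr_not_all (Ω := Co V P → Fin M) (fun b ω => b ∈ B j →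
      (#{w ∈ X j i | cn N b w ω < 8} : ℝ) ≤ 16 * (K0 * d) / M) (p := q)
      (fun b => pr_not_imp _ _ hq0.le fun _ => by
        refine (ev_n hM8 hA.mts.NN (Z := K0 * d) (by positivity) (X j i) (hXc j i) b).trans ?_
        rw [hq]
        exact Real.exp_le_exp.2 (neg_le_neg hξn))
    rw [Fintype.card_fin] at q1
    refine q1.trans ?_
    have h7 : 1 ≤ Z := hZ1
    have h8 : (P : ℝ) ≤ 122 * Z ^ 2 := by nlinarith
    exact mul_le_mul_of_nonneg_right h8 hq0.le
  -- the local lemma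
  have hlem : ∃ ω : Co V P → Fin M, (∀ v, Gv v ω ∧ Fv v fun b => cn N b v ω < 8) ∧
      ∀ j i, ∀ b ∈ B j, (#{w ∈ X j i | cn N b w ω < 8} : ℝ) ≤ 16 * (K0 * d) / M := by
    obtain ⟨W, hWf, wj, wi, hW1, hW2, hW3⟩ : ∃ (W : Type u) (_ : Fintype W) (wj : W → J)
        (wi : W → I), (∀ w, (Qn N (B (wj w)) (X (wj w) (wi w))).Nonempty) ∧
        (∀ j i, (Qn N (B j) (X j i)).Nonempty → ∃ w, wj w = j ∧ wi w = i) ∧
        (∀ w w', wj w = wj w' → wi w = wi w' → w = w') :=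
      ⟨{p : J × I // (Qn N (B p.1) (X p.1 p.2)).Nonempty}, inferInstance, fun w => w.1.1,
        fun w => w.1.2, fun w => w.2, fun j i h => ⟨⟨(j, i), h⟩, rfl, rfl⟩,
        fun w w' h1 h2 => Subtype.ext (Prod.ext h1 h2)⟩
    have hdG : ∀ v, (nb G v).card ≤ K0 * d := hA.dG
    obtain ⟨ω, hω⟩ := lll_simple hM0 (V := V ⊕ W)
      (Sum.elim (fun v (ω : Co V P → Fin M) => ¬ (Gv v ω ∧ Fv v fun b => cn N b v ω < 8))
        (fun w ω => ¬ ∀ b ∈ B (wj w), (#{x ∈ X (wj w) (wi w) | cn N b x ω < 8} : ℝ) ≤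
          16 * (K0 * d) / M))
      (Sum.elim (fun v => Qs G v) (fun w => Qn N (B (wj w)) (X (wj w) (wi w))))
      (q := 4 * Z ^ 6) (n := 3 * Z ^ 3) (p := 122 * Z ^ 2 * q)
      (by
        rintro (v | w)
        · refine dep_not (dep_and ?_ (dep_cn hA.mts.NG v (Fv v)))
          have := dep_GdV (M := M) (L := L) (ρ := ρ) (δ := δ) (Mr := M) (m1 := m1) (lab := lab)
            (ix := ix) (θ := θ) (θ' := θ') (DD := D) (Dtt := Dt) hE v
          intro ω ω' h
          exact propext (((hGv v ω).trans (iff_of_eq (this ω ω' h))).trans (hGv v ω').symm)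
        · exact dep_not (dep_node _ _ _))
      (by
        rintro (v | w)
        · exact ⟨Sum.inr (Sum.inl v), mem_Qs2.2 (b2_sub (b1_sub (b1_self v)))⟩
        · exact hW1 w)
      (by nlinarith [one_le_pow₀ hZ1 (n := 6)])
      (by
        have hZ6 : Z * Z ≤ Z ^ 6 := by
          rw [← sq]
          exact pow_le_pow_right₀ hZ1 (by norm_num)
        rintro (v | w)
        · have h1 := Qs_card (P := P) hdG v
          have h2 : (#(Qs (P := P) G v) : ℝ) ≤ (P + 1) * (K0 * d + 1) ^ 3 + (K0 * d + 1) ^ 6 := by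
            exact_mod_cast h1
          rw [← hZ] at h2
          have h3 : ((P : ℝ) + 1) * Z ^ 3 ≤ 2 * Z * Z ^ 3 :=
            mul_le_mul_of_nonneg_right hPZ (by positivity)
          have h4 : Z * Z ^ 3 ≤ Z ^ 6 := by
            have : Z * Z ^ 3 = Z ^ 4 := by ring
            rw [this]
            exact pow_le_pow_right₀ hZ1 (by norm_num)
          show (#(Qs (P := P) G v) : ℝ) ≤ 4 * Z ^ 6
          nlinarith
        · have h1 := Qn_card (N := N) (B (wj w)) (X (wj w) (wi w))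
          have h2 : (#(Qn N (B (wj w)) (X (wj w) (wi w))) : ℝ) ≤ P * #(X (wj w) (wi w)) := by
            exact_mod_cast h1
          have h3 := hXc (wj w) (wi w)
          have h4 : (P : ℝ) * #(X (wj w) (wi w)) ≤ 2 * Z * Z :=
            mul_le_mul (by linarith) (by linarith) (Nat.cast_nonneg _) (by positivity)
          show (#(Qn N (B (wj w)) (X (wj w) (wi w))) : ℝ) ≤ 4 * Z ^ 6
          have h5 : 0 ≤ Z ^ 6 := by positivity
          linarith)
      (by
        intro y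
        have h1 := Qs_cnt hdG y
        have h2 := node_cnt hA.mts.NN cl nn B X hBd hXm wj wi hW3 y
        have h3 : #(univ.filter fun x : V ⊕ W => y ∈ Sum.elim (fun v => Qs G v)
            (fun w => Qn N (B (wj w)) (X (wj w) (wi w))) x) ≤
            #(univ.filter fun v => y ∈ Qs G v) +
              #(univ.filter fun w => y ∈ Qn N (B (wj w)) (X (wj w) (wi w))) := by
          rw [← card_disjSum]
          refine card_le_card ?_
          rintro (v | w) hx
          · rw [mem_filter] at hx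
            rw [inl_mem_disjSum, mem_filter]
            exact ⟨mem_univ _, hx.2⟩
          · rw [mem_filter] at hx
            rw [inr_mem_disjSum, mem_filter]
            exact ⟨mem_univ _, hx.2⟩
        have h4 : (#(univ.filter fun x : V ⊕ W => y ∈ Sum.elim (fun v => Qs G v)
            (fun w => Qn N (B (wj w)) (X (wj w) (wi w))) x) : ℝ) ≤ (K0 * d + 1) ^ 3 + 2 := by
          exact_mod_cast h3.trans (Nat.add_le_add h1 h2)
        rw [← hZ] at h4
        have h5 : 1 ≤ Z ^ 3 := one_le_pow₀ hZ1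
        linarith)
      (by
        rintro (v | w)
        · exact hpv v
        · exact hpn (wj w) (wi w))
      (by positivity)
      (by
        rw [← hZ, ← hq] at hfin
        have h1 : 8 * (3 * Z ^ 3) * (4 * Z ^ 6) * (122 * Z ^ 2 * q) = 11712 * Z ^ 11 * q := by ring
        rw [h1]
        refine le_trans ?_ hfin
        exact mul_le_mul_of_nonneg_right (mul_le_mul_of_nonneg_right (by norm_num)
          (by positivity)) hq0.le)
    refine ⟨ω, fun v => not_not.1 (hω (Sum.inl v)), fun j i b hb => ?_⟩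
    by_cases hne : (Qn N (B j) (X j i)).Nonempty
    · obtain ⟨w, h1, h2⟩ := hW2 j i hne
      have h3 := not_not.1 (hω (Sum.inr w))
      rw [h1, h2] at h3
      exact h3 b hb
    · have h1 : X j i = ∅ := by
        by_contra h
        obtain ⟨x, hx⟩ := nonempty_iff_ne_empty.2 h
        exact hne ⟨_, mem_image.2 ⟨(b, x), mem_product.2 ⟨hb, hx⟩, rfl⟩⟩
      rw [h1, filter_empty, card_empty, Nat.cast_zero]
      positivity
  obtain ⟨ω, hω1, hω2⟩ := hlem
  have hg1 : ∀ v b, GdV O c N (S (cl b)) Km lab ix K0 m1 (r (cl b)) T0 L ρ (D (cl b)) (Dt (cl b)) δ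
      M θ θ' (A (cl b)) K v b ω := fun v b => (hGv v ω).1 (hω1 v).1 b
  have hg2 := fun v => (hF' v ω).1 (hω1 v).2
  have hz1 : 0 ≤ 48 * (d : ℝ) / M := by positivity
  obtain ⟨F, hFo⟩ := out (m1 := m1) (ω := ω) (z1 := 48 * (d : ℝ) / M) (Ξ := 16 * (K0 * d) / M)
    (B0 := (d : ℝ) ^ (1 / 250 : ℝ)) hA hK hn hθ hθ' hinj
    (fun b => {
      a0 := fun v s => (hg1 v b).a0 s
      a1 := fun v s => (hg1 v b).a1 s
      a2 := fun t j h2 hj v s => (hg1 v b).a2 t ⟨j, hj⟩ h2 s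
      a3 := fun v s => (hg1 v b).a3 s
      a4 := fun v s => (hg1 v b).a4 s
      a5 := fun v s => (hg1 v b).a5 s
      e2 := fun v => (hg1 v b).e2
      e3 := fun v hv s => (hg1 v b).e3 hv s
      e4 := fun v hv s => (hg1 v b).e4 hv s
      e5 := fun v hv hv' s => (hg1 v b).e5 hv hv' s
      e5t := fun v hv hv' s => (hg1 v b).e5t hv hv' s
      e6 := fun v hv s => (hg1 v b).e6 hv s }) hK1 hε hε1 hz1 (fun v => (hg2 v).1)
    (fun v => by
      have := (hg2 v).2
      simp only [hQ] at this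
      exact this)
    (fun j i b hb => by
      have := hω2 j i b ((hBd j b).2 hb)
      rw [hX] at this
      exact this) h3 hz
    (fun j => by
      have hDt := (hn j).Dt0
      have h1 := hB j
      have h2 : 16 * ((K0 : ℝ) * d) / M * (ε / (8 * (48 * d / M + K0))) ≤ K0 := by
        have h4 : ε / (8 * (48 * d / M + K0)) ≤ 1 / (8 * (48 * d / M)) :=
          div_le_div₀ (by norm_num) hε1 (by positivity) (by nlinarith)
        have h5 : 16 * ((K0 : ℝ) * d) / M * (1 / (8 * (48 * d / M))) = K0 / 24 := by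
          field_simp
          norm_num
        have h6 := mul_le_mul_of_nonneg_left h4 (by positivity : 0 ≤ 16 * ((K0 : ℝ) * d) / M)
        rw [h5] at h6
        linarith
      have h4 : 0 ≤ 16 * ((K0 : ℝ) * d) / M * (3000 / ρ * (6 * T0 / Dt j)) := by positivity
      have h5 : 32 * ((K0 : ℝ) * d) / M * (3000 / ρ * (6 * T0 / Dt j)) =
          2 * (16 * ((K0 : ℝ) * d) / M * (3000 / ρ * (6 * T0 / Dt j))) := by ring
      rw [mul_add]
      rw [h5] at h1
      linarith)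
  exact ⟨F, 48 * d / M + K0, 16 * (K0 * d) / M, fun j => hF j, hΞ, hFo⟩

end Pool.Agent.Work.MP_db9399_eg
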