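import Pool.Agent.Work.MP_db9399_eg.ENGM
import Pool.Agent.Work.MP_db9399_eg_helper68.NUM2

/-!
# MP_db9399, ENGN (helper89)
-/

set_option autoImplicit false

namespace Pool.Agent.Work.MP_db9399_eg

open Finset Classical
open Pool.Agent.Work.MP_db9399_sg (OutN Stmt_ENGN)

universe u

/-- **ENGN** -/
theorem stmt_ENGN : Stmt_ENGN.{u} := by
  obtain ⟨d₀, hd₀⟩ := stmt_ENGM.{u} helper68.stmt_NUM2
  refine ⟨1 / 2500, 1 / 40000, 1, d₀, by norm_num, le_rfl, by norm_num, one_pos, ?_⟩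
  intro V I J _ _ _ P G S cl O A nn d K0 T0 L r ρ ε R c N K Km lab θ θ' hA hK hθ hθ' hd hK1 hJ hT
    hρ1 hε hε1 hr hK' hT' hL' hρ hερ hres
  obtain ⟨F, z, Ξ, h1, h2, h3⟩ := hd₀ P G S cl O A nn d K0 T0 L r ρ ε c N K Km lab θ θ' hA hK hθ
    hθ' hd hK1 hJ hT hρ1 hε hε1 hr hK' hT' hL' hρ hερ (fun j v => (hres j v).trans (le_of_eq (by
      ring)))
  refine ⟨F, h3.FF, h3.FG, h3.Fd, h3.Fo, h3.Fz, h3.Fm, h3.F1, h3.Fs, ?_, ?_, ?_, h3.Fl⟩
  · intro j v
    have g1 : (((R v).filter fun b => cl b = j ∧ v ∉ Pool.Agent.Work.MP_db9399_sg.fzN O c N b ∧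
        F b v ≠ N b v).card : ℝ) ≤ z + 1 := by
      refine le_trans ?_ (h3.Ft v)
      norm_cast
      refine card_le_card fun b hb => ?_
      rw [mem_filter] at hb ⊢
      exact ⟨mem_univ _, hb.2.2⟩
    have g2 : 0 ≤ 1 * ((r j : ℝ) / d) * ((R v).card : ℝ) := by positivity
    have g3 := h1 j
    linarith
  · intro j i b hb
    exact (h3.Fw j i b hb).trans h2
  · intro j i b hb
    refine (h3.Fn j i b hb).trans (le_of_eq ?_)
    norm_num

end Pool.Agent.Work.MP_db9399_eg
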