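import Pool.Agent.Work.MP_db9399_eg.GOOD
import Pool.Agent.Work.MP_db9399_en.EVT3

/-!
# MP_db9399, ENGN: probabilities of the basic events (helper89)
-/

set_option autoImplicit false

namespace Pool.Agent.Work.MP_db9399_eg

open Finset Classical
open Pool.Agent.Work.MP_db9399_all (nb pr DepOnI)
open Pool.Agent.Work.MP_db9399_sg (tkN tksN fzN resN)
open Pool.Agent.Work.MP_db9399_en

universe u v w

attribute [-instance] instDecidableEqSum

section Coins

variable {V : Type u} [Fintype V] {P M : ℕ} {G S : SimpleGraph V} {r K0 T0 m1 : ℕ} {ρ : ℝ}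
  {O : Finset V} {c : V → Option (Fin P)} {N : Fin P → V → V} {Ac K Km : Finset V}
  {lab : Fin P → V → Bool} {ix : V × V → Fin P → ℕ}

theorem ac_dep (b : Fin P) (w : V) (s : Bool) :
    DepOnI (sa0 N b w) (fun ω : Co V P → Fin M => ac O c N Km K0 m1 b w s ω) := by
  intro a a' h
  have h1 : cn N b w a = cn N b w a' := by
    rw [cn, cn, h _ (by simp [sa0])]
  have h2 : st w a = st w a' := by
    rw [st, st, h _ (by simp [sa0])]
  have h3 : st (N b w) a = st (N b w) a' := by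
    rw [st, st, h _ (by simp [sa0])]
  simp only [ac, dbl, h1, h2, h3]

theorem ac_iff {b : Fin P} {w : V} {s : Bool} {ω : Co V P → Fin M} (h1 : nz O c N b w)
    (h2 : w ∉ tkN O c N b) : ac O c N Km K0 m1 b w s ω ↔
      (wn N Km b w s ≤ cn N b w ω ∧ cn N b w ω < wn N Km b w s + hh N Km b w) ∧
        ¬ dbl N Km K0 m1 b w ω := by
  rw [ac, wn]
  split_ifs with h
  · constructor
    · rintro ⟨_, _, h3, h4⟩
      exact ⟨⟨by omega, by omega⟩, h3⟩
    · rintro ⟨h3, h4⟩
      exact ⟨h1, h2, h4, by omega⟩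
  · constructor
    · rintro ⟨_, _, h3, h4⟩
      exact ⟨⟨by omega, by omega⟩, h3⟩
    · rintro ⟨h3, h4⟩
      exact ⟨h1, h2, h4, by omega⟩

theorem pr_ac (hM : M = 4 * (K0 * m1)) (hK : 1 ≤ K0) (hm : 1 ≤ m1) (hM8 : 8 ≤ M) {b : Fin P}
    {w : V} (h1 : nz O c N b w) (h2 : w ∉ tkN O c N b) (s : Bool) :
    pr (fun ω : Co V P → Fin M => ac O c N Km K0 m1 b w s ω) = 3 / M := by
  have hM0 : 0 < M := by omega
  have e : (fun ω : Co V P → Fin M => ac O c N Km K0 m1 b w s ω) = fun ω : Co V P → Fin M =>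
      (wn N Km b w s ≤ cn N b w ω ∧ cn N b w ω < wn N Km b w s + hh N Km b w) ∧
        ¬ dbl N Km K0 m1 b w ω := by
    funext ω
    exact propext (ac_iff h1 h2)
  have hne : N b w ≠ w := (not_tk h1 h2).1
  by_cases hs : spc N Km b w
  · have hd : (fun ω : Co V P → Fin M => dbl N Km K0 m1 b w ω) = fun ω : Co V P → Fin M =>
        st w ω / (K0 * m1) < 2 ∧ st (N b w) ω / (K0 * m1) < 2 := by
      funext ω
      refine propext ?_
      rw [dbl]
      exact ⟨fun h => h.2.2, fun h => ⟨hs.1, hs.2, h⟩⟩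
    have hpd : pr (fun ω : Co V P → Fin M => dbl N Km K0 m1 b w ω) = 1 / 4 := by
      rw [hd, pr_ind' hM0 (st_dep w fun x => x / (K0 * m1) < 2)
        (st_dep (N b w) fun x => x / (K0 * m1) < 2) (by
          rw [disjoint_singleton]
          simp [hne.symm]), pr_st2 hM hK hm, pr_st2 hM hK hm]
      norm_num
    have hdd : DepOnI {(Sum.inr (Sum.inl w) : Co V P), Sum.inr (Sum.inl (N b w))}
        (fun ω : Co V P → Fin M => ¬ dbl N Km K0 m1 b w ω) := by
      intro a a' h
      have h3 : st w a = st w a' := by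
        rw [st, st, h _ (by simp)]
      have h4 : st (N b w) a = st (N b w) a' := by
        rw [st, st, h _ (by simp)]
      simp only [dbl, h3, h4]
    rw [e, pr_ind' hM0 (cn_dep b w fun x => wn N Km b w s ≤ x ∧ x < wn N Km b w s + hh N Km b w)
      hdd (by simp), pr_wn hM8, pr_not hM0, hpd, hh, if_pos hs]
    ring
  · have hd : (fun ω : Co V P → Fin M => (wn N Km b w s ≤ cn N b w ω ∧
        cn N b w ω < wn N Km b w s + hh N Km b w) ∧ ¬ dbl N Km K0 m1 b w ω) =
        fun ω : Co V P → Fin M => wn N Km b w s ≤ cn N b w ω ∧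
          cn N b w ω < wn N Km b w s + hh N Km b w := by
      funext ω
      refine propext ⟨fun h => h.1, fun h => ⟨h, fun h' => hs ⟨h'.1, h'.2.1⟩⟩⟩
    rw [e, hd, pr_wn hM8, hh, if_neg hs]
    norm_num

/-- active star vertices -/
theorem pr_acst (hM : M = 4 * (K0 * m1)) (hK : 1 ≤ K0) (hm : 1 ≤ m1) (hM8 : 8 ≤ M) {b : Fin P}
    {w : V} (h1 : nz O c N b w) (h2 : w ∉ tkN O c N b) (hw : w ∈ Km) (s : Bool) :
    1 / (2 * M) ≤
      pr (fun ω : Co V P → Fin M => ac O c N Km K0 m1 b w s ω ∧ w ∈ MM Km K0 m1 s ω) := by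
  have hM0 : 0 < M := by omega
  have hMr : (0 : ℝ) < M := by exact_mod_cast hM0
  have hne : N b w ≠ w := (not_tk h1 h2).1
  by_cases hs : spc N Km b w
  · have g1 : pr (fun ω : Co V P → Fin M => (wn N Km b w s ≤ cn N b w ω ∧
        cn N b w ω < wn N Km b w s + hh N Km b w) ∧ ((st w ω / (K0 * m1) = if s then 0 else 1) ∧
          ¬ st (N b w) ω / (K0 * m1) < 2)) = 1 / (2 * M) := by
      have hd : DepOnI {(Sum.inr (Sum.inl w) : Co V P), Sum.inr (Sum.inl (N b w))}
          (fun ω : Co V P → Fin M => (st w ω / (K0 * m1) = if s then 0 else 1) ∧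
          ¬ st (N b w) ω / (K0 * m1) < 2) := by
        intro a a' h
        have h3 : st w a = st w a' := by
          rw [st, st, h _ (by simp)]
        have h4 : st (N b w) a = st (N b w) a' := by
          rw [st, st, h _ (by simp)]
        simp only [h3, h4]
      rw [pr_ind' hM0 (cn_dep b w fun x => wn N Km b w s ≤ x ∧ x < wn N Km b w s + hh N Km b w)
        hd (by simp), pr_wn hM8,
        pr_ind' hM0 (st_dep w fun x => x / (K0 * m1) = if s then 0 else 1)
        (st_dep (N b w) fun x => ¬ x / (K0 * m1) < 2) (by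
          rw [disjoint_singleton]
          simp [hne.symm]), pr_sts hM hK hm, pr_not hM0, pr_st2 hM hK hm, hh, if_pos hs]
      field_simp
      norm_num
    rw [← g1]
    refine pr_mono fun ω hω => ?_
    obtain ⟨h3, h4, h5⟩ := hω
    exact ⟨(ac_iff h1 h2).2 ⟨h3, fun hd => h5 hd.2.2.2⟩, mem_MM.2 ⟨hw, h4⟩⟩
  · have g1 : pr (fun ω : Co V P → Fin M => (wn N Km b w s ≤ cn N b w ω ∧
        cn N b w ω < wn N Km b w s + hh N Km b w) ∧ (st w ω / (K0 * m1) = if s then 0 else 1)) =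
        3 / (4 * M) := by
      rw [pr_ind' hM0 (cn_dep b w fun x => wn N Km b w s ≤ x ∧ x < wn N Km b w s + hh N Km b w)
        (st_dep w fun x => x / (K0 * m1) = if s then 0 else 1) (by simp), pr_wn hM8,
        pr_sts hM hK hm, hh, if_neg hs]
      field_simp
      norm_num
    have g2 : 1 / (2 * (M : ℝ)) ≤ 3 / (4 * M) := by
      rw [div_le_div_iff₀ (by positivity) (by positivity)]
      linarith
    refine g2.trans ?_
    rw [← g1]
    refine pr_mono fun ω hω => ?_
    exact ⟨(ac_iff h1 h2).2 ⟨hω.1, fun hd => hs ⟨hd.1, hd.2.1⟩⟩, mem_MM.2 ⟨hw, hω.2⟩⟩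

/-- active exits -/
theorem pr_acmx (hM : M = 4 * (K0 * m1)) (hK : 1 ≤ K0) (hm : 1 ≤ m1) (hM8 : 8 ≤ M) {b : Fin P}
    {w : V} (h1 : nz O c N b w) (h2 : w ∉ tkN O c N b) (hw : w ∈ Km ∨ w ∉ O) (s : Bool) :
    1 / (2 * M) ≤
      pr (fun ω : Co V P → Fin M => ac O c N Km K0 m1 b w s ω ∧ w ∈ MX O Km K0 m1 s ω) := by
  rcases hw with hw | hw
  · refine (pr_acst hM hK hm hM8 h1 h2 hw s).trans (pr_mono fun ω h => ⟨h.1, ?_⟩)
    exact mem_MX.2 (Or.inl h.2)
  · have hMr : (0 : ℝ) < M := by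
      have : 0 < M := by omega
      exact_mod_cast this
    refine le_trans ?_ (pr_mono (E := fun ω : Co V P → Fin M => ac O c N Km K0 m1 b w s ω)
      fun ω h => ⟨h, mem_MX.2 (Or.inr hw)⟩)
    rw [pr_ac hM hK hm hM8 h1 h2, div_le_div_iff₀ (by positivity) hMr]
    linarith

theorem mx_dep (w : V) (s : Bool) : DepOnI {(Sum.inr (Sum.inl w) : Co V P)}
    (fun ω : Co V P → Fin M => w ∈ MX O Km K0 m1 s ω) := by
  intro a a' h
  have h2 : st w a = st w a' := by
    rw [st, st, h _ (by simp)]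
  simp only [mem_MX, mem_MM, h2]

end Coins

end Pool.Agent.Work.MP_db9399_eg
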