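import Pool.Agent.Work.MP_db9399_eg.GOOD
import Pool.Agent.Work.MP_db9399_en.WALK

/-!
# MP_db9399, ENGINE: the walk of one colour under the good events (helper89)
-/

set_option autoImplicit false

namespace Pool.Agent.Work.MP_db9399_eg

open Finset Classical
open Pool.Agent.Work.MP_db9399_all (nb)
open Pool.Agent.Work.MP_db9399_as.helper89
open Pool.Agent.Work.MP_db9399_sg (tkN tksN fzN resN)
open Pool.Agent.Work.MP_db9399_en

universe u

section Walk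

variable {V : Type u} [Fintype V] {P M : ℕ} {G S : SimpleGraph V} {d r K0 T0 m1 L : ℕ}
  {ρ D Dt δ Mr : ℝ}
  {O : Finset V} {c : V → Option (Fin P)} {N : Fin P → V → V} {A K Km : Finset V} {lab : Fin P → V → Bool}
  {ix : V × V → Fin P → ℕ} {ω : Co V P → Fin M} {b : Fin P} {θ θ' : ℕ → ℝ}



theorem HH_one (v : V) : HH S r (fun _ => 1) v = (#(nb S v) : ℝ) / r := by
  simp [HH]

theorem HH_mono {f g : V → ℝ} (h : ∀ v, f v ≤ g v) (v : V) : HH S r f v ≤ HH S r g v :=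
  div_le_div_of_nonneg_right (sum_le_sum fun w _ => h w) (Nat.cast_nonneg _)

theorem HH_nonneg {f : V → ℝ} (h : ∀ v, 0 ≤ f v) (v : V) : 0 ≤ HH S r f v :=
  div_nonneg (sum_nonneg fun w _ => h w) (Nat.cast_nonneg _)

theorem HH_deg (hE : E1 G S r K0 T0 ρ O c N A K Km b) (hn : Nm r K0 T0 L P ρ D Dt δ Mr) (v : V) :
    (v ∈ A → 1 ≤ (#(nb S v) : ℝ) / r) ∧ (#(nb S v) : ℝ) / r ≤ 1 + δ := by
  have h0 := hn.r0
  constructor
  · intro hv
    rw [le_div_iff₀ h0, one_mul]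
    exact_mod_cast hE.dS1 v hv
  · rw [div_le_iff₀ h0]
    have h1 := hE.dS2 v
    have h2 : ((nb S v).card : ℝ) ≤ r + K0 := by exact_mod_cast h1
    have h3 := hn.kr
    rw [div_le_iff₀ h0] at h3
    linarith

/-- bound for an average -/
theorem HH_le (hE : E1 G S r K0 T0 ρ O c N A K Km b) (hn : Nm r K0 T0 L P ρ D Dt δ Mr)
    {g : V → ℝ} {Φ : ℝ} (hΦ : 0 ≤ Φ) (hg : ∀ v, g v ≤ Φ) (v : V) : HH S r g v ≤ (1 + δ) * Φ := by
  have h1 : HH S r g v ≤ (#(nb S v) : ℝ) / r * Φ := by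
    rw [HH, div_mul_eq_mul_div]
    refine div_le_div_of_nonneg_right ?_ (Nat.cast_nonneg _)
    have := sum_le_card_nsmul (nb S v) g Φ fun w _ => hg w
    rwa [nsmul_eq_mul] at this
  exact h1.trans (mul_le_mul_of_nonneg_right (HH_deg hE hn v).2 hΦ)

/-- generic reserve degree of a generic vertex, upper bound -/
theorem cnt_gen_up (hE : E1 G S r K0 T0 ρ O c N A K Km b) (hn : Nm r K0 T0 L P ρ D Dt δ Mr)
    (hG : GdB O c N S Km lab ix K0 m1 r T0 L ρ D Dt δ Mr θ θ' A K b ω) {v : V}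
    (hv : v ∉ tkN O c N b) (s : Bool) :
    (#{w ∈ XX O c N Km lab K0 m1 b s ω | w ∉ tkN O c N b ∧ SS O c N S ix K0 m1 b v w ω} : ℝ) ≤
      (1 + 3 * δ) * D := by
  rw [gen_nb hv]
  have hD := hn.D0
  have hδ := hn.δ0
  have h1 := NR_sum (g := fun _ => 1) (Φ := 1) (fun _ => ⟨zero_le_one, le_rfl⟩)
    (by positivity) hG.e2 hG.a0 v s
  rw [HH_one] at h1
  simp only [sum_const, nsmul_eq_mul, mul_one] at h1
  obtain ⟨_, h3⟩ := HH_deg hE hn v
  have h4 : D * ((#(nb S v) : ℝ) / r) ≤ D * (1 + δ) := mul_le_mul_of_nonneg_left h3 hD.le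
  rw [abs_le] at h1
  nlinarith [h1.2]

/-- generic reserve degree of a generic vertex -/
theorem cnt_gen (hE : E1 G S r K0 T0 ρ O c N A K Km b) (hn : Nm r K0 T0 L P ρ D Dt δ Mr)
    (hG : GdB O c N S Km lab ix K0 m1 r T0 L ρ D Dt δ Mr θ θ' A K b ω) {v : V} (hvA : v ∈ A)
    (hv : v ∉ tkN O c N b) (s : Bool) :
    |(#{w ∈ XX O c N Km lab K0 m1 b s ω | w ∉ tkN O c N b ∧ SS O c N S ix K0 m1 b v w ω} : ℝ) - D| ≤
      3 * δ * D := by
  rw [gen_nb hv]
  have hD := hn.D0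
  have hδ := hn.δ0
  have h1 := NR_sum (g := fun _ => 1) (Φ := 1) (fun _ => ⟨zero_le_one, le_rfl⟩)
    (by positivity) hG.e2 hG.a0 v s
  rw [HH_one] at h1
  simp only [sum_const, nsmul_eq_mul, mul_one] at h1
  obtain ⟨h2, h3⟩ := HH_deg hE hn v
  have h4 : D * ((#(nb S v) : ℝ) / r) ≤ D * (1 + δ) := mul_le_mul_of_nonneg_left h3 hD.le
  have h5 : D * 1 ≤ D * ((#(nb S v) : ℝ) / r) := mul_le_mul_of_nonneg_left (h2 hvA) hD.le
  rw [abs_le] at h1 ⊢
  constructor <;> nlinarith [h1.1, h1.2]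

/-- generic reserve degree of a token -/
theorem cnt_tok (hG : GdB O c N S Km lab ix K0 m1 r T0 L ρ D Dt δ Mr θ θ' A K b ω) {v : V}
    (hv : v ∈ tkN O c N b) (s : Bool) :
    |(#{w ∈ XX O c N Km lab K0 m1 b s ω | w ∉ tkN O c N b ∧ SS O c N S ix K0 m1 b v w ω} : ℝ) - Dt| ≤
      δ * Dt := by
  rw [tok_nb hv]
  exact hG.e3 v hv s

theorem cnt_le (hE : E1 G S r K0 T0 ρ O c N A K Km b) (hn : Nm r K0 T0 L P ρ D Dt δ Mr)
    (hG : GdB O c N S Km lab ix K0 m1 r T0 L ρ D Dt δ Mr θ θ' A K b ω) (v : V) (s : Bool) :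
    (#{w ∈ XX O c N Km lab K0 m1 b s ω | w ∉ tkN O c N b ∧ SS O c N S ix K0 m1 b v w ω} : ℝ) ≤
      (1 + 3 * δ) * D := by
  have hδ := hn.δ0
  have hD := hn.D0
  by_cases hv : v ∈ tkN O c N b
  · have h1 := (abs_le.1 (cnt_tok hG hv s)).2
    have h2 := hn.Dt2
    have h3 := hn.Dt0
    have h4 := hn.δs
    nlinarith
  · exact cnt_gen_up hE hn hG hv s

theorem deg_split (v : V) (s : Bool) :
    (#{w ∈ XX O c N Km lab K0 m1 b s ω | SS O c N S ix K0 m1 b v w ω} : ℝ) =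
      #{w ∈ XX O c N Km lab K0 m1 b s ω | w ∉ tkN O c N b ∧ SS O c N S ix K0 m1 b v w ω} +
      #{w ∈ XX O c N Km lab K0 m1 b s ω | w ∈ tkN O c N b ∧ SS O c N S ix K0 m1 b v w ω} := by
  have := sum_split_W (XX O c N Km lab K0 m1 b s ω) (fun w => SS O c N S ix K0 m1 b v w ω)
    (tkN O c N b) (fun _ => (1 : ℝ))
  simpa using this

/-- reserve degree of a generic vertex -/
theorem deg_gen (hE : E1 G S r K0 T0 ρ O c N A K Km b) (hn : Nm r K0 T0 L P ρ D Dt δ Mr)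
    (hG : GdB O c N S Km lab ix K0 m1 r T0 L ρ D Dt δ Mr θ θ' A K b ω) {v : V} (hvA : v ∈ A)
    (hv : v ∉ tkN O c N b) (s : Bool) :
    |(#{w ∈ XX O c N Km lab K0 m1 b s ω | SS O c N S ix K0 m1 b v w ω} : ℝ) - D| ≤ 4 * δ * D := by
  have h1 := cnt_gen hE hn hG hvA hv s
  have h2 := tok_cnt (lab := lab) (ix := ix) (m1 := m1) (ω := ω) (b := b) hE v s
  have h3 : (0 : ℝ) ≤ #{w ∈ XX O c N Km lab K0 m1 b s ω | w ∈ tkN O c N b ∧
    SS O c N S ix K0 m1 b v w ω} := Nat.cast_nonneg _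
  have h4 := hn.tDD
  have h5 := hn.δ0
  have h6 := hn.D0
  rw [deg_split]
  have h7 : 0 ≤ δ * D := by positivity
  rw [abs_le] at h1 ⊢
  constructor <;> linarith [h1.1, h1.2]

/-- reserve degree of a token -/
theorem deg_tok (hE : E1 G S r K0 T0 ρ O c N A K Km b) (hn : Nm r K0 T0 L P ρ D Dt δ Mr)
    (hG : GdB O c N S Km lab ix K0 m1 r T0 L ρ D Dt δ Mr θ θ' A K b ω) {v : V} (hv : v ∈ tkN O c N b)
    (s : Bool) :
    |(#{w ∈ XX O c N Km lab K0 m1 b s ω | SS O c N S ix K0 m1 b v w ω} : ℝ) - Dt| ≤ 2 * δ * Dt := by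
  have h1 := cnt_tok hG hv s
  have h2 := tok_cnt (lab := lab) (ix := ix) (m1 := m1) (ω := ω) (b := b) hE v s
  have h3 : (0 : ℝ) ≤ #{w ∈ XX O c N Km lab K0 m1 b s ω | w ∈ tkN O c N b ∧
    SS O c N S ix K0 m1 b v w ω} := Nat.cast_nonneg _
  have h4 := hn.tDt
  have h5 := hn.δ0
  have h6 := hn.Dt0
  rw [deg_split]
  have h7 : 0 ≤ δ * Dt := by positivity
  rw [abs_le] at h1 ⊢
  constructor <;> linarith [h1.1, h1.2]

theorem deg_low (hE : E1 G S r K0 T0 ρ O c N A K Km b) (hn : Nm r K0 T0 L P ρ D Dt δ Mr)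
    (hG : GdB O c N S Km lab ix K0 m1 r T0 L ρ D Dt δ Mr θ θ' A K b ω) {v : V} (hvA : v ∈ A)
    (s : Bool) :
    Dt / 2 ≤ (#{w ∈ XX O c N Km lab K0 m1 b s ω | SS O c N S ix K0 m1 b v w ω} : ℝ) := by
  have h4 := hn.δs
  have h5 := hn.δ0
  have h6 := hn.Dt0
  have h7 := hn.Dt2
  by_cases hv : v ∈ tkN O c N b
  · have h1 := (abs_le.1 (deg_tok hE hn hG hv s)).1
    nlinarith
  · have h1 := (abs_le.1 (deg_gen hE hn hG hvA hv s)).1
    nlinarith

theorem deg_up (hE : E1 G S r K0 T0 ρ O c N A K Km b) (hn : Nm r K0 T0 L P ρ D Dt δ Mr)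
    (hG : GdB O c N S Km lab ix K0 m1 r T0 L ρ D Dt δ Mr θ θ' A K b ω) (v : V) (s : Bool) :
    (#{w ∈ XX O c N Km lab K0 m1 b s ω | SS O c N S ix K0 m1 b v w ω} : ℝ) ≤ (1 + 4 * δ) * D := by
  have h4 := hn.δs
  have h5 := hn.δ0
  have h6 := hn.Dt0
  have h7 := hn.Dt2
  by_cases hv : v ∈ tkN O c N b
  · have h1 := (abs_le.1 (deg_tok hE hn hG hv s)).2
    nlinarith
  · have h1 := cnt_gen_up hE hn hG hv s
    have h2 := tok_cnt (lab := lab) (ix := ix) (m1 := m1) (ω := ω) (b := b) hE v s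
    have h3 := hn.tDD
    have h8 := hn.D0
    rw [deg_split]
    nlinarith

/-- the degree function on the two sides -/
theorem dgb_eq {v : V} {s : Bool} (hv : v ∈ XX O c N Km lab K0 m1 b s ω) :
    dgb O c N S Km lab ix K0 m1 b v ω =
      (#{w ∈ XX O c N Km lab K0 m1 b (!s) ω | SS O c N S ix K0 m1 b v w ω} : ℝ) := by
  rw [dgb]
  cases s
  · have h1 : v ∉ XX O c N Km lab K0 m1 b true ω := fun h =>
      (Finset.disjoint_left.1 (XX_disj b true) h) hv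
    rw [if_neg h1]
    rfl
  · rw [if_pos hv]
    rfl

theorem Zt_mem {t : Bool} {j : ℕ} {v : V} (hv : v ∈ Zt O c N Km lab K0 m1 b t j ω) :
    ∃ s, v ∈ XX O c N Km lab K0 m1 b s ω := by
  rw [Zt] at hv
  split_ifs at hv
  · exact ⟨_, hv⟩
  · exact ⟨_, hv⟩

theorem Zt_eq (t : Bool) (j : ℕ) : ∃ s, Zt O c N Km lab K0 m1 b t j ω = XX O c N Km lab K0 m1 b s ω := by
  rw [Zt]
  split_ifs
  · exact ⟨_, rfl⟩
  · exact ⟨_, rfl⟩

theorem card_swap (X : Finset V) (v : V) :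
    ({w ∈ X | w ∉ tkN O c N b ∧ SS O c N S ix K0 m1 b w v ω} : Finset V) =
      {w ∈ X | w ∉ tkN O c N b ∧ SS O c N S ix K0 m1 b v w ω} := by
  ext w
  simp only [mem_filter, SS_comm b w v]

theorem card_swap' (X : Finset V) (v : V) :
    ({w ∈ X | w ∈ tkN O c N b ∧ SS O c N S ix K0 m1 b w v ω} : Finset V) =
      {w ∈ X | w ∈ tkN O c N b ∧ SS O c N S ix K0 m1 b v w ω} := by
  ext w
  simp only [mem_filter, SS_comm b w v]

/-! ### powers -/

theorem pow_le_two {x : ℝ} {n : ℕ} (hx : 0 ≤ x) (h : n * x ≤ 1 / 2) : (1 + x) ^ n ≤ 2 := by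
  have h1 : (1 + x) ^ n ≤ Real.exp (n * x) := by
    rw [Real.exp_nat_mul]
    have := Real.add_one_le_exp x
    exact pow_le_pow_left₀ (by linarith) (by linarith) n
  have h2 : Real.exp (n * x) ≤ Real.exp (1 / 2) := Real.exp_le_exp.2 h
  have h3 : Real.exp (1 / 2) ≤ 2 := by
    have h4 := Real.exp_bound_div_one_sub_of_interval (x := 1 / 2) (by norm_num) (by norm_num)
    norm_num at h4 ⊢
    exact h4
  linarith

/-! ### the walk on `S` -/

theorem wlk_succ (A : Finset V) (j : ℕ) (v : V) :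
    wlk S r A (j + 1) v = HH S r (wlk S r A j) v := by
  rw [wlk, wlk, Function.iterate_succ']
  rfl

theorem wlk_zero (A : Finset V) (v : V) : wlk S r A 0 v = if v ∈ A then 1 else 0 := rfl

theorem wlk_nonneg (A : Finset V) (j : ℕ) : ∀ v, 0 ≤ wlk S r A j v := by
  induction j with
  | zero =>
    intro v
    rw [wlk_zero]
    split_ifs <;> norm_num
  | succ j ih =>
    intro v
    rw [wlk_succ]
    exact HH_nonneg ih v

theorem wlk_bd (hE : E1 G S r K0 T0 ρ O c N A K Km b) (hn : Nm r K0 T0 L P ρ D Dt δ Mr)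
    (s : Bool) (j : ℕ) :
    ∀ v, wlk S r (tksN O c N lab b s) (j + 1) v ≤ (1 + δ) ^ j * (T0 / r) := by
  have h0 := hn.r0
  have hT := hn.t0
  have hδ := hn.δ0
  induction j with
  | zero =>
    intro v
    rw [wlk_succ, pow_zero, one_mul, HH]
    refine div_le_div_of_nonneg_right ?_ (Nat.cast_nonneg _)
    have h1 : ∑ w ∈ nb S v, wlk S r (tksN O c N lab b s) 0 w =
        (#{w ∈ nb S v | w ∈ tksN O c N lab b s} : ℝ) := by
      simp only [wlk_zero]
      rw [sum_boole]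
    rw [h1]
    refine le_trans ?_ (Nat.cast_le.2 (hE.tk2 v))
    norm_cast
    refine card_le_card fun w hw => ?_
    rw [mem_filter] at hw ⊢
    exact ⟨hw.1, (mem_tks.1 hw.2).1⟩
  | succ j ih =>
    intro v
    rw [wlk_succ]
    refine (HH_le hE hn (by positivity) ih v).trans (le_of_eq ?_)
    rw [pow_succ]
    ring

/-- the predicted values are at most `T0 / D` -/
theorem F_bd (hE : E1 G S r K0 T0 ρ O c N A K Km b) (hn : Nm r K0 T0 L P ρ D Dt δ Mr)
    (s : Bool) {j : ℕ} (hj : 1 ≤ j) (hj2 : j ≤ 2 * L) (v : V) :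
    0 ≤ Mr / 3 * wlk S r (tksN O c N lab b s) j v ∧
      Mr / 3 * wlk S r (tksN O c N lab b s) j v ≤ T0 / D := by
  have hM := hn.M0
  have h0 := hn.r0
  have hδ := hn.δ0
  have hT := hn.t0
  refine ⟨mul_nonneg (by positivity) (wlk_nonneg _ _ v), ?_⟩
  obtain ⟨i, rfl⟩ : ∃ i, j = i + 1 := ⟨j - 1, by omega⟩
  have h1 := wlk_bd (lab := lab) (b := b) hE hn s i v
  have h2 : (1 + δ) ^ i ≤ 2 := by
    refine pow_le_two hδ.le ?_
    have h3 : (i : ℝ) ≤ 2 * L := by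
      have : i ≤ 2 * L := by omega
      exact_mod_cast this
    have h4 := hn.lδ
    nlinarith
  have h3 : wlk S r (tksN O c N lab b s) (i + 1) v ≤ 2 * (T0 / r) :=
    h1.trans (mul_le_mul_of_nonneg_right h2 (by positivity))
  have h4 : Mr / 3 * wlk S r (tksN O c N lab b s) (i + 1) v ≤ Mr / 3 * (2 * (T0 / r)) :=
    mul_le_mul_of_nonneg_left h3 (by positivity)
  refine h4.trans (le_of_eq ?_)
  rw [hn.dD]
  field_simp

/-! ### the walk on the reserve graph of `b` -/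

theorem fw_succ (t : Bool) (j : ℕ) (v : V) :
    fw O c N S Km lab ix K0 m1 b t ω (j + 1) v =
      ∑ w ∈ Zt O c N Km lab K0 m1 b t j ω with SS O c N S ix K0 m1 b w v ω,
        fw O c N S Km lab ix K0 m1 b t ω j w / dgb O c N S Km lab ix K0 m1 b w ω := rfl

theorem Zt_deg (hE : E1 G S r K0 T0 ρ O c N A K Km b) (hn : Nm r K0 T0 L P ρ D Dt δ Mr)
    (hG : GdB O c N S Km lab ix K0 m1 r T0 L ρ D Dt δ Mr θ θ' A K b ω) {t : Bool} {j : ℕ} {w : V}
    (hw : w ∈ Zt O c N Km lab K0 m1 b t j ω) :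
    (w ∉ tkN O c N b → |dgb O c N S Km lab ix K0 m1 b w ω - D| ≤ 4 * δ * D) ∧
    (w ∈ tkN O c N b → |dgb O c N S Km lab ix K0 m1 b w ω - Dt| ≤ 2 * δ * Dt) ∧
    Dt / 2 ≤ dgb O c N S Km lab ix K0 m1 b w ω := by
  obtain ⟨s, hs⟩ := Zt_mem hw
  rw [dgb_eq hs]
  exact ⟨fun h => deg_gen hE hn hG (XX_A hE hs) h _, fun h => deg_tok hE hn hG h _,
    deg_low hE hn hG (XX_A hE hs) _⟩

theorem Zt_cnt (hE : E1 G S r K0 T0 ρ O c N A K Km b) (hn : Nm r K0 T0 L P ρ D Dt δ Mr)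
    (hG : GdB O c N S Km lab ix K0 m1 r T0 L ρ D Dt δ Mr θ θ' A K b ω) (t : Bool) (j : ℕ) (v : V) :
    (#{w ∈ Zt O c N Km lab K0 m1 b t j ω | w ∉ tkN O c N b ∧ SS O c N S ix K0 m1 b w v ω} : ℝ) ≤
      (1 + 4 * δ) * D ∧
    (#{w ∈ Zt O c N Km lab K0 m1 b t j ω | w ∈ tkN O c N b ∧ SS O c N S ix K0 m1 b w v ω} : ℝ) ≤ T0 := by
  obtain ⟨s, hs⟩ := Zt_eq (O := O) (c := c) (N := N) (Km := Km) (lab := lab) (K0 := K0) (m1 := m1)
    (b := b) (ω := ω) t j
  rw [hs, card_swap, card_swap']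
  refine ⟨(cnt_le hE hn hG v s).trans ?_, tok_cnt hE v s⟩
  have := hn.δ0
  have := hn.D0
  nlinarith

theorem fw_zero (t : Bool) (v : V) : fw O c N S Km lab ix K0 m1 b t ω 0 v =
    if v ∈ tksN O c N lab b t then 1 else 0 := rfl

theorem Zt0 {t : Bool} {v : V} (hv : v ∈ Zt O c N Km lab K0 m1 b t 0 ω) :
    (v ∈ tksN O c N lab b t ↔ v ∈ tkN O c N b) := by
  rw [Zt, if_pos (by norm_num)] at hv
  exact ⟨fun h => (mem_tks.1 h).1, fun h => XX_tk hv h⟩

theorem fw_crude (hE : E1 G S r K0 T0 ρ O c N A K Km b) (hn : Nm r K0 T0 L P ρ D Dt δ Mr)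
    (hG : GdB O c N S Km lab ix K0 m1 r T0 L ρ D Dt δ Mr θ θ' A K b ω) (t : Bool) {j : ℕ} (hj : j < 2 * L) :
    ∀ v ∈ Zt O c N Km lab K0 m1 b t (j + 1) ω, 0 ≤ fw O c N S Km lab ix K0 m1 b t ω (j + 1) v ∧
      fw O c N S Km lab ix K0 m1 b t ω (j + 1) v ≤ 6 * T0 / Dt := by
  have hδ := hn.δ0
  have hD := hn.D0
  have hDt := hn.Dt0
  have hs := hn.δs
  have hT := hn.t0
  have h1 := crude (Z := fun j => Zt O c N Km lab K0 m1 b t j ω)
    (R := fun w v => SS O c N S ix K0 m1 b w v ω) (W := tkN O c N b)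
    (dg := fun w => dgb O c N S Km lab ix K0 m1 b w ω) (f := fw O c N S Km lab ix K0 m1 b t ω)
    (D := D) (Dl := Dt / 2) (δ := 4 * δ) (T := T0) (by positivity) (by linarith) hD
    (by positivity) (by positivity)
    (by
      rw [div_le_iff₀ (by positivity)]
      have := hn.tDt
      nlinarith)
    (fun j v _ => fw_succ t j v)
    (fun v hv => by
      refine ⟨fun h => ?_, ?_, ?_⟩
      · rw [fw_zero, if_neg (fun h' => h ((Zt0 hv).1 h'))]
      · rw [fw_zero]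
        split_ifs <;> norm_num
      · rw [fw_zero]
        split_ifs <;> norm_num)
    (fun j w hw hW => by
      have := (abs_le.1 ((Zt_deg hE hn hG hw).1 hW)).1
      linarith)
    (fun j w hw => (Zt_deg hE hn hG hw).2.2)
    (fun j v _ => (Zt_cnt hE hn hG t j v).1) (fun j v _ => (Zt_cnt hE hn hG t j v).2) j
  intro v hv
  obtain ⟨h2, h3⟩ := h1 v hv
  refine ⟨h2, h3.trans ?_⟩
  have h4 : (1 + 5 * (4 * δ)) ^ j ≤ 2 := by
    refine pow_le_two (by positivity) ?_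
    have h5 : (j : ℝ) ≤ 2 * L := by
      have : j ≤ 2 * L := by omega
      exact_mod_cast this
    have h6 := hn.lδ
    nlinarith
  have h5 : (T0 : ℝ) / (Dt / 2) * (1 + 5 * (4 * δ)) ^ j ≤ T0 / (Dt / 2) * 2 :=
    mul_le_mul_of_nonneg_left h4 (by positivity)
  refine h5.trans ?_
  have h6 : (T0 : ℝ) / (Dt / 2) * 2 = 4 * T0 / Dt := by
    field_simp
    ring
  rw [h6]
  refine div_le_div_of_nonneg_right ?_ hDt.le
  linarith

theorem pk_comm (u v : V) : pk ix K0 m1 b u v ω ↔ pk ix K0 m1 b v u ω := by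
  rw [pk, pk, eg, eg, ep_comm]

/-- sums over the token neighbours, first step -/
theorem tn_eq {w : V} (hw : w ∉ tkN O c N b) (t : Bool) :
    (#{z ∈ XX O c N Km lab K0 m1 b t ω | z ∈ tkN O c N b ∧ SS O c N S ix K0 m1 b z w ω} : ℝ) =
      tn O c N S lab ix K0 m1 b t w ω := by
  rw [tn]
  congr 2
  ext z
  simp only [mem_filter, mem_nb]
  constructor
  · rintro ⟨h1, h2, h3⟩
    refine ⟨h3.1.symm, XX_tk h1 h2, ?_⟩
    rcases h3.2 with h4 | h4
    · exact (pk_comm z w).1 h4.2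
    · exact absurd hw (fun _ => h4.1 h2)
  · rintro ⟨h1, h2, h3⟩
    exact ⟨mem_XX.2 (Or.inl h2), (mem_tks.1 h2).1, h1.symm,
      Or.inl ⟨Or.inl (mem_tks.1 h2).1, (pk_comm w z).1 h3⟩⟩

theorem tn_bd (hE : E1 G S r K0 T0 ρ O c N A K Km b) (t : Bool) (w : V) :
    0 ≤ tn O c N S lab ix K0 m1 b t w ω ∧ tn O c N S lab ix K0 m1 b t w ω ≤ T0 := by
  refine ⟨Nat.cast_nonneg _, ?_⟩
  refine le_trans ?_ (Nat.cast_le.2 (hE.tk2 w))
  rw [tn]
  norm_cast
  refine card_le_card fun z hz => ?_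
  rw [mem_filter] at hz ⊢
  exact ⟨hz.1, (mem_tks.1 hz.2.1).1⟩

/-- **The walk of one colour is the walk on `S`.** -/
theorem fw_approx (hE : E1 G S r K0 T0 ρ O c N A K Km b) (hn : Nm r K0 T0 L P ρ D Dt δ Mr)
    (hG : GdB O c N S Km lab ix K0 m1 r T0 L ρ D Dt δ Mr θ θ' A K b ω) (t : Bool) {j : ℕ} (hj2 : 2 ≤ j)
    (hj : j ≤ 2 * L) :
    ∀ v ∈ Zt O c N Km lab K0 m1 b t j ω, v ∉ tkN O c N b →
      |fw O c N S Km lab ix K0 m1 b t ω j v - Mr / 3 * wlk S r (tksN O c N lab b t) j v| ≤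
        100 * L * δ * (6 * T0 / Dt) := by
  have hδ := hn.δ0
  have hD := hn.D0
  have hDt := hn.Dt0
  have hs := hn.δs
  have hT := hn.t0
  have hL := hn.l0
  set Φ : ℝ := 6 * T0 / Dt with hΦ
  have hΦ0 : 0 ≤ Φ := by positivity
  have hTD : T0 / D ≤ Φ := by
    rw [hΦ, div_le_div_iff₀ hD hDt]
    have := hn.Dt2
    nlinarith
  obtain ⟨i, rfl⟩ : ∃ i, j = i + 2 := ⟨j - 2, by omega⟩
  have hT4 : (T0 : ℝ) / (Dt / 2) ≤ 4 * δ := by
    rw [div_le_iff₀ (by positivity)]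
    have := hn.tDt
    nlinarith
  have hbase := base (Z := fun j => Zt O c N Km lab K0 m1 b t j ω)
    (R := fun w v => SS O c N S ix K0 m1 b w v ω) (W := tkN O c N b)
    (dg := fun w => dgb O c N S Km lab ix K0 m1 b w ω) (f := fw O c N S Km lab ix K0 m1 b t ω)
    (F := fun j v => Mr / 3 * wlk S r (tksN O c N lab b t) j v)
    (D := D) (Dl := Dt / 2) (Dt := Dt) (δ := 4 * δ) (T := T0) (Φ := Φ) (by positivity)
    (by linarith) hD (by positivity) hDt hΦ0 (by positivity) hT4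
    (fun j v _ => fw_succ t j v)
    (fun v hv => by
      rw [fw_zero]
      by_cases h : v ∈ tkN O c N b
      · rw [if_pos ((Zt0 hv).2 h), if_pos h]
      · rw [if_neg (fun h' => h ((Zt0 hv).1 h')), if_neg h])
    (fun v hv => fw_crude hE hn hG t (j := 0) (by omega) v hv)
    (fun j w hw hW => (Zt_deg hE hn hG hw).1 hW)
    (fun w hw hW => by
      refine ((Zt_deg hE hn hG hw).2.1 hW).trans ?_
      have : 0 ≤ δ * Dt := by positivity
      linarith)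
    (fun j w hw => (Zt_deg hE hn hG hw).2.2)
    (fun j v _ => (Zt_cnt hE hn hG t j v).1) (fun j v _ => (Zt_cnt hE hn hG t j v).2)
    (by
      intro v hv hvW
      have e0 : Zt O c N Km lab K0 m1 b t 0 ω = XX O c N Km lab K0 m1 b t ω := by
        rw [Zt, if_pos (by norm_num)]
      have e1 : Zt O c N Km lab K0 m1 b t 1 ω = XX O c N Km lab K0 m1 b (!t) ω := by
        rw [Zt, if_neg (by norm_num)]
      simp only [e0, e1]
      rw [card_swap, gen_nb hvW]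
      have g1 : ∑ w ∈ NR O c N S Km K0 m1 b v (!t) ω,
          (#{z ∈ XX O c N Km lab K0 m1 b t ω | z ∈ tkN O c N b ∧ SS O c N S ix K0 m1 b z w ω} : ℝ) =
          ∑ w ∈ NR O c N S Km K0 m1 b v (!t) ω, tn O c N S lab ix K0 m1 b t w ω := by
        refine sum_congr rfl fun w hw => tn_eq ?_ t
        rw [NR, mem_filter, mem_NG] at hw
        exact hw.1.2.1.2.1
      rw [g1]
      have g2 : ∑ w ∈ NG O c N S Km K0 m1 b v (!t) ω, tn O c N S lab ix K0 m1 b t w ω =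
          ∑ w ∈ NR O c N S Km K0 m1 b v (!t) ω, tn O c N S lab ix K0 m1 b t w ω +
          ∑ w ∈ NG O c N S Km K0 m1 b v (!t) ω with bl N b v w ω, tn O c N S lab ix K0 m1 b t w ω := by
        rw [NR, add_comm]
        exact (sum_filter_add_sum_filter_not _ _ _).symm
      have g3 : ∑ w ∈ NG O c N S Km K0 m1 b v (!t) ω with bl N b v w ω,
          tn O c N S lab ix K0 m1 b t w ω ≤ δ * D * T0 := by
        have k1 : ∑ w ∈ NG O c N S Km K0 m1 b v (!t) ω with bl N b v w ω,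
            tn O c N S lab ix K0 m1 b t w ω ≤
            #{w ∈ NG O c N S Km K0 m1 b v (!t) ω | bl N b v w ω} • (T0 : ℝ) :=
          sum_le_card_nsmul _ _ _ fun w _ => (tn_bd hE t w).2
        refine k1.trans ?_
        rw [nsmul_eq_mul]
        refine mul_le_mul_of_nonneg_right (le_trans ?_ (hG.e2 v)) (by positivity)
        norm_cast
        refine card_le_card fun w hw => ?_
        rw [mem_filter, mem_NG] at hw
        rw [BB, mem_filter, mem_nb]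
        exact ⟨hw.1.1, ac_cn hw.1.2.1, hw.2⟩
      have g4 : 0 ≤ ∑ w ∈ NG O c N S Km K0 m1 b v (!t) ω with bl N b v w ω,
          tn O c N S lab ix K0 m1 b t w ω := sum_nonneg fun w _ => (tn_bd hE t w).1
      have g5 := hG.e4 v hvW t
      rw [g2] at g5
      have g6 : 0 ≤ δ * D * T0 := by positivity
      rw [abs_le] at g5 ⊢
      constructor <;> linarith [g5.1, g5.2])
  have h1 := approx (Z := fun j => Zt O c N Km lab K0 m1 b t j ω)
    (R := fun w v => SS O c N S ix K0 m1 b w v ω) (W := tkN O c N b)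
    (dg := fun w => dgb O c N S Km lab ix K0 m1 b w ω) (f := fw O c N S Km lab ix K0 m1 b t ω)
    (F := fun j v => Mr / 3 * wlk S r (tksN O c N lab b t) j v)
    (D := D) (Dl := Dt / 2) (δ := 4 * δ) (T := T0) (Φ := Φ) (by positivity)
    (by linarith) hD (by positivity) hΦ0 hT4
    (fun j v _ => fw_succ t j v)
    (fun j w hw hW => (Zt_deg hE hn hG hw).1 hW)
    (fun j w hw => (Zt_deg hE hn hG hw).2.2)
    (fun j v _ => (Zt_cnt hE hn hG t j v).1) (fun j v _ => (Zt_cnt hE hn hG t j v).2)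
    (n := 2 * L)
    (by
      intro j h2 h3 v hv hvW
      obtain ⟨s, hs'⟩ := Zt_eq (O := O) (c := c) (N := N) (Km := Km) (lab := lab) (K0 := K0) (m1 := m1)
        (b := b) (ω := ω) t j
      simp only [hs']
      rw [card_swap, gen_nb hvW]
      have g1 := NR_sum (g := fun v => Mr / 3 * wlk S r (tksN O c N lab b t) j v) (Φ := T0 / D)
        (fun v => F_bd hE hn t (by omega) (by omega) v) (by positivity) hG.e2
        (hG.a2 t j h2 h3) v s
      have g2 : HH S r (fun v => Mr / 3 * wlk S r (tksN O c N lab b t) j v) v =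
          Mr / 3 * wlk S r (tksN O c N lab b t) (j + 1) v := by
        rw [wlk_succ, HH, HH, ← mul_sum, mul_div_assoc]
      rw [g2] at g1
      refine g1.trans ?_
      have g3 : 2 * δ * D * (T0 / D) ≤ 2 * δ * D * Φ :=
        mul_le_mul_of_nonneg_left hTD (by positivity)
      have g4 : 0 ≤ δ * D * Φ := by positivity
      linarith)
    (fun j h2 h3 v _ => by
      obtain ⟨g1, g2⟩ := F_bd (lab := lab) (b := b) hE hn t (j := j) (by omega) (by omega) v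
      exact ⟨g1, g2.trans hTD⟩)
    (fun j h2 h3 v hv => by
      obtain ⟨i, rfl⟩ : ∃ i, j = i + 1 := ⟨j - 1, by omega⟩
      exact fw_crude hE hn hG t (by omega) v hv)
    (η := 11 * (4 * δ) * (T0 / Dt) + 4 * δ * Φ) (by positivity) hbase i (by omega)
  intro v hv hvW
  refine (h1 v hv hvW).trans ?_
  have h2 : (1 + 4 * (4 * δ)) ^ i ≤ 2 := by
    refine pow_le_two (by positivity) ?_
    have h5 : (i : ℝ) ≤ 2 * L := by
      have : i ≤ 2 * L := by omega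
      exact_mod_cast this
    have h6 := hn.lδ
    nlinarith
  have h3 : (T0 : ℝ) / Dt = Φ / 6 := by
    rw [hΦ]
    field_simp
  have h4 : (i : ℝ) ≤ 2 * L := by
    have : i ≤ 2 * L := by omega
    exact_mod_cast this
  rw [h3]
  have h5 : 11 * (4 * δ) * (Φ / 6) + 4 * δ * Φ + 4 * i * (4 * δ * Φ) ≤ 50 * L * δ * Φ := by
    have g1 : 0 ≤ δ * Φ := by positivity
    have g2 : (i : ℝ) * (δ * Φ) ≤ 2 * L * (δ * Φ) := mul_le_mul_of_nonneg_right h4 g1
    have g3 : 1 * (δ * Φ) ≤ L * (δ * Φ) := mul_le_mul_of_nonneg_right hL g1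
    linarith
  have h6 : 0 ≤ 11 * (4 * δ) * (Φ / 6) + 4 * δ * Φ + 4 * i * (4 * δ * Φ) := by positivity
  calc (1 + 4 * (4 * δ)) ^ i * (11 * (4 * δ) * (Φ / 6) + 4 * δ * Φ + 4 * i * (4 * δ * Φ))
      ≤ 2 * (50 * L * δ * Φ) := mul_le_mul h2 h5 h6 (by norm_num)
    _ = _ := by ring

end Walk

end Pool.Agent.Work.MP_db9399_eg
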