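import Pool.Agent.Work.MP_db9399_eg.CERT
import Pool.Agent.Work.MP_db9399_eg.ASM
import Pool.Agent.Work.MP_db9399_en.ONE
import Pool.Agent.Work.MP_db9399_hx_helper68.HALLC

/-!
# MP_db9399, ENGN: the good events give the output (helper89)
-/

set_option autoImplicit false

namespace Pool.Agent.Work.MP_db9399_eg

open Finset Classical
open Pool.Agent.Work.MP_db9399_all (nb)
open Pool.Agent.Work.MP_db9399_as.helper89
open Pool.Agent.Work.MP_db9399_sg (tkN tksN fzN resN mss AllN KmN)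
open Pool.Agent.Work.MP_db9399_hx.helper68 (hallC def_star dem stp mem_stp)
open Pool.Agent.Work.MP_db9399_en

universe u

section Loads

variable {V : Type u} [Fintype V] {P M : ℕ} {K0 m1 : ℕ}
  {O : Finset V} {c : V → Option (Fin P)} {N : Fin P → V → V} {Km : Finset V}
  {lab : Fin P → V → Bool} {ω : Co V P → Fin M}

/-- number of colours in which a vertex is active -/
theorem cntX (tk1 : ∀ v, (univ.filter fun b => v ∈ tkN O c N b).card ≤ K0) {z1 : ℝ}
    (v1 : ∀ v, (#{b | cn N b v ω < 8} : ℝ) ≤ z1) (v : V) :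
    (#{b | v ∈ XX O c N Km lab K0 m1 b true ω ∨ v ∈ XX O c N Km lab K0 m1 b false ω} : ℝ) ≤
      z1 + K0 := by
  have g1 : (univ.filter fun b => v ∈ XX O c N Km lab K0 m1 b true ω ∨
      v ∈ XX O c N Km lab K0 m1 b false ω) ⊆
      (univ.filter fun b => cn N b v ω < 8) ∪ (univ.filter fun b => v ∈ tkN O c N b) := by
    intro b hb
    rw [mem_filter] at hb
    rw [mem_union, mem_filter, mem_filter]
    by_cases h : v ∈ tkN O c N b
    · exact Or.inr ⟨mem_univ _, h⟩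
    · rcases hb.2 with hb | hb
      · exact Or.inl ⟨mem_univ _, ac_cn (XX_ac hb h)⟩
      · exact Or.inl ⟨mem_univ _, ac_cn (XX_ac hb h)⟩
  have g2 := (card_le_card g1).trans (card_union_le _ _)
  have g3 := tk1 v
  have g4 : (#{b | v ∈ XX O c N Km lab K0 m1 b true ω ∨
      v ∈ XX O c N Km lab K0 m1 b false ω} : ℝ) ≤ #{b | cn N b v ω < 8} + K0 := by
    exact_mod_cast g2.trans (Nat.add_le_add_left g3 _)
  linarith [v1 v]

/-- the load of a vertex without tokens -/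
theorem sumX' {Q : Fin P → V → ℝ} {ε4 : ℝ} {v : V} (hQ0 : ∀ b, 0 ≤ Q b v)
    (v2 : ∑ b with cn N b v ω < 8, Q b v ≤ ε4) (s : Bool) (f : Fin P → V → ℝ)
    (hf1 : ∀ b, v ∈ XX O c N Km lab K0 m1 b s ω → v ∉ tkN O c N b → f b v ≤ Q b v) :
    ∑ b ∈ univ.filter (fun b => v ∈ XX O c N Km lab K0 m1 b s ω) with ¬ v ∈ tkN O c N b,
      f b v ≤ ε4 := by
  refine le_trans (sum_le_sum (g := fun b => Q b v) fun b hb => ?_) (le_trans
    (sum_le_sum_of_subset_of_nonneg ?_ fun b _ _ => hQ0 b) v2)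
  · rw [mem_filter, mem_filter] at hb
    exact hf1 b hb.1.2 hb.2
  · intro b hb
    rw [mem_filter, mem_filter] at hb
    rw [mem_filter]
    exact ⟨mem_univ _, ac_cn (XX_ac hb.1.2 hb.2)⟩

/-- the load of a vertex -/
theorem sumX (tk1 : ∀ v, (univ.filter fun b => v ∈ tkN O c N b).card ≤ K0)
    {Q : Fin P → V → ℝ} {Ψ ε4 : ℝ} (hΨ : 0 ≤ Ψ) {v : V} (hQ0 : ∀ b, 0 ≤ Q b v)
    (v2 : ∑ b with cn N b v ω < 8, Q b v ≤ ε4) (s : Bool) (f : Fin P → V → ℝ)
    (hf1 : ∀ b, v ∈ XX O c N Km lab K0 m1 b s ω → v ∉ tkN O c N b → f b v ≤ Q b v)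
    (hf2 : ∀ b, v ∈ XX O c N Km lab K0 m1 b s ω → f b v ≤ Ψ) :
    ∑ b with v ∈ XX O c N Km lab K0 m1 b s ω, f b v ≤ ε4 + K0 * Ψ := by
  rw [← sum_filter_add_sum_filter_not (univ.filter fun b => v ∈ XX O c N Km lab K0 m1 b s ω)
    (fun b => v ∈ tkN O c N b)]
  have g1 : ∑ b ∈ univ.filter (fun b => v ∈ XX O c N Km lab K0 m1 b s ω) with v ∈ tkN O c N b,
      f b v ≤ K0 * Ψ := by
    have g2 := sum_le_card_nsmul
      ((univ.filter fun b => v ∈ XX O c N Km lab K0 m1 b s ω).filter fun b => v ∈ tkN O c N b)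
      (fun b => f b v) Ψ (fun b hb => by
        rw [mem_filter, mem_filter] at hb
        exact hf2 b hb.1.2)
    rw [nsmul_eq_mul] at g2
    refine g2.trans (mul_le_mul_of_nonneg_right ?_ hΨ)
    have g3 : ((univ.filter fun b => v ∈ XX O c N Km lab K0 m1 b s ω).filter
        fun b => v ∈ tkN O c N b) ⊆ univ.filter fun b => v ∈ tkN O c N b := by
      intro b hb
      rw [mem_filter, mem_filter] at hb
      rw [mem_filter]
      exact ⟨mem_univ _, hb.2⟩
    exact_mod_cast (card_le_card g3).trans (tk1 v)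
  have g4 := sumX' hQ0 v2 s f hf1
  linarith

end Loads

/-- the bound for `τ Ex / σ` -/
theorem q_ok {r K0 T0 L P : ℕ} {ρ D Dt δ Mr ε : ℝ} (hn : Nm r K0 T0 L P ρ D Dt δ Mr) {z τ : ℝ}
    (hz0 : 0 < z) (hε : 0 < ε) (hτ : τ ≤ 25000 * L * K0 ^ 4 * T0 / (ρ * D ^ 2))
    (hz : 4 * 10 ^ 9 * z * L * K0 ^ 6 * T0 * δ ≤ ρ ^ 2 * D * ε) :
    τ * (9 * δ * D) / (ρ / (1000 * K0 ^ 2)) ≤ ε / (8 * z) := by
  have hD := hn.D0
  have hδ := hn.δ0
  have hK0 := hn.K00
  have hρ := hn.ρ0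
  have g1 : τ * (9 * δ * D) ≤ 25000 * L * K0 ^ 4 * T0 / (ρ * D ^ 2) * (9 * δ * D) :=
    mul_le_mul_of_nonneg_right hτ (by positivity)
  rw [div_le_iff₀ (by positivity)]
  refine g1.trans ?_
  have g2 : ε / (8 * z) * (ρ / (1000 * K0 ^ 2)) = ε * ρ / (8000 * z * K0 ^ 2) := by
    field_simp
    norm_num
  have g3 : 25000 * L * K0 ^ 4 * T0 / (ρ * D ^ 2) * (9 * δ * D) =
      225000 * L * K0 ^ 4 * T0 * δ / (ρ * D) := by
    field_simp
    ring
  rw [g2, g3, div_le_div_iff₀ (by positivity) (by positivity)]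
  have g4 : 225000 * L * K0 ^ 4 * T0 * δ * (8000 * z * K0 ^ 2) =
      (45 / 100) * (4 * 10 ^ 9 * z * L * K0 ^ 6 * T0 * δ) := by ring
  have g5 : 0 ≤ ρ ^ 2 * D * ε := by positivity
  rw [g4]
  linarith

section Out

variable {V I J : Type u} [Fintype V] [Fintype I] [Fintype J] {P M : ℕ} {G : SimpleGraph V}
  {S : J → SimpleGraph V} {cl : Fin P → J} {O : Finset V} {A : J → Finset V}
  {nn : J → V → Option I} {d K0 T0 L m1 : ℕ} {r : J → ℕ} {ρ ε δ Mr z1 Ξ B0 : ℝ} {D Dt : J → ℝ}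
  {c : V → Option (Fin P)} {N : Fin P → V → V} {K Km : Finset V} {lab : Fin P → V → Bool}
  {ix : V × V → Fin P → ℕ} {θ θ' : ℕ → ℝ} {ω : Co V P → Fin M}

/-- the output -/
structure OutE (G : SimpleGraph V) (S : J → SimpleGraph V) (cl : Fin P → J) (O : Finset V)
    (nn : J → V → Option I) (ε z Ξ B0 : ℝ) (c : V → Option (Fin P)) (N : Fin P → V → V)
    (Km : Finset V) (F : Fin P → V → V) : Prop where
  FF : ∀ b v, F b (F b v) = v
  FG : ∀ b v, F b v ≠ v → F b v = N b v ∨ (S (cl b)).Adj v (F b v)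
  Fd : ∀ b b' v, F b v ≠ v → F b v = F b' v → b = b'
  Fo : ∀ b v, c v = some b → F b v = v
  Fz : ∀ b v, v ∈ fzN O c N b → F b v = v
  Fm : ∀ b v, v ∈ O → F b v = v → c v ≠ some b → v ∈ Km
  F1 : ∀ v, v ∈ O → (univ.filter fun b => F b v = v ∧ c v ≠ some b).card ≤ 1
  Fs : ∀ v w b b', v ∈ O → w ∈ O → F b v = v → c v ≠ some b → F b' w = w → c w ≠ some b' →
    G.Adj v w → ∃ b'', F b'' v = w
  Ft : ∀ v, ((univ.filter fun b => v ∉ fzN O c N b ∧ F b v ≠ N b v).card : ℝ) ≤ z + 1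
  Fw : ∀ j i b, cl b = j → ((univ.filter fun v => nn j v = some i ∧ v ∉ fzN O c N b ∧
    F b v ≠ N b v).card : ℝ) ≤ Ξ
  Fn : ∀ j i b, cl b = j → mss O nn c N F j i b ≤ B0
  Fl : ∀ j i, ∑ b with cl b = j, mss O nn c N F j i b ≤
    ε * (univ.filter fun v => nn j v = some i).card + 4

omit [Fintype I] in
/-- the one-colour worlds -/
theorem e1_of (hA : AllN G S cl O A nn d K0 T0 r c N) (hK : KmN G S O A r ρ c N K Km) (b : Fin P) :
    E1 G (S (cl b)) (r (cl b)) K0 T0 ρ O c N (A (cl b)) K Km b where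
  hSG := hA.SG _
  OA := hA.AO _
  dS1 := hA.dS1 _
  dS2 := hA.dS2 _
  cO := hA.cO
  NN := hA.mts.NN
  NG := hA.mts.NG
  NS := fun b' v => hA.NS b' v _
  Na := hA.Na b
  tk2 := hA.tk2 b
  ow := hA.ow b
  KO := hK.KO
  K4 := hK.K4 _
  K5 := hK.K5 _

theorem out (hA : AllN G S cl O A nn d K0 T0 r c N) (hK : KmN G S O A r ρ c N K Km)
    (hn : ∀ j, Nm (r j) K0 T0 L P ρ (D j) (Dt j) δ Mr) (hθ : Wts L θ) (hθ' : Wts L θ')
    (hix : ∀ u v b b', (u ∈ tkN O c N b ∨ v ∈ tkN O c N b) →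
      (u ∈ tkN O c N b' ∨ v ∈ tkN O c N b') → ix (ep u v) b = ix (ep u v) b' → b = b')
    (hG : ∀ b, GdB O c N (S (cl b)) Km lab ix K0 m1 (r (cl b)) T0 L ρ (D (cl b)) (Dt (cl b)) δ Mr
      θ θ' (A (cl b)) K b ω)
    (hK1 : 1 ≤ K0) (hε : 0 < ε) (hε1 : ε ≤ 1) (hz1 : 0 ≤ z1)
    (v1 : ∀ v, (#{b | cn N b v ω < 8} : ℝ) ≤ z1)
    (v2 : ∀ v, ∑ b with cn N b v ω < 8, Qf O c N (S (cl b)) lab (r (cl b)) L ρ δ Mr
      (6 * T0 / Dt (cl b)) θ θ' b v ≤ ε / 4)
    (hnd : ∀ j i b, cl b = j →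
      (#{v ∈ (univ.filter fun v => nn j v = some i) | cn N b v ω < 8} : ℝ) ≤ Ξ)
    (h3 : ∀ j, K0 * (3000 / ρ * (6 * T0 / Dt j)) ≤ 1 / 4)
    (hz : ∀ j, 4 * 10 ^ 9 * (z1 + K0) * L * K0 ^ 6 * T0 * δ ≤ ρ ^ 2 * D j * ε)
    (hB : ∀ j, Ξ * (3000 / ρ * (6 * T0 / Dt j) + ε / (8 * (z1 + K0))) + 4 ≤ B0) :
    ∃ F : Fin P → V → V, OutE G S cl O nn ε (z1 + K0) Ξ B0 c N Km F := by
  have hE := e1_of hA hK
  have hK0 : (1 : ℝ) ≤ K0 := by exact_mod_cast hK1
  obtain ⟨z, hze⟩ : ∃ z : ℝ, z = z1 + K0 := ⟨_, rfl⟩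
  have hz0 : 0 < z := by linarith
  rw [← hze] at hz hB ⊢
  obtain ⟨τ, hτ⟩ : ∃ τ : J → ℝ, ∀ j, τ j = 2 * L * (6 * T0 / Dt j / (Dt j / 2)) +
      6 * T0 / Dt j / (Dt j / 2) + (6 * T0 / Dt j +
      (1 + 4 * δ) * D j * ((6 * T0 / Dt j + (1 + 4 * δ) * D j *
        (6 * T0 / Dt j / (Dt j / 2))) / (Dt j / 8))) / (ρ * Dt j / 12) := ⟨_, fun _ => rfl⟩
  have hτ0 : ∀ j, 0 ≤ τ j := by
    intro j
    have hD := (hn j).D0
    have hDt := (hn j).Dt0
    have hρ := (hn j).ρ0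
    have hδ := (hn j).δ0
    rw [hτ]
    positivity
  have hτb : ∀ j, τ j ≤ 25000 * L * K0 ^ 4 * T0 / (ρ * D j ^ 2) := fun j => hτ j ▸ tau_bd (hn j)
  obtain ⟨q, hq⟩ : ∃ q : J → ℝ, ∀ j, q j = τ j * (9 * δ * D j) / (ρ / (1000 * K0 ^ 2)) :=
    ⟨_, fun _ => rfl⟩
  have hq0 : ∀ j, 0 ≤ q j := by
    intro j
    have hD := (hn j).D0
    have hρ := (hn j).ρ0
    have hδ := (hn j).δ0
    have := hτ0 j
    rw [hq]
    positivity
  have hqb : ∀ j, q j ≤ ε / (8 * z) := fun j => by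
    rw [hq]
    exact q_ok (hn j) hz0 hε (hτb j) (hz j)
  -- certificates
  choose x e hx1 hx2 hx3 hx4 using fun b => cert (hE b) (hn (cl b)) (hG b) hθ hθ' true
  choose x' e' hy1 hy2 hy3 hy4 using fun b => cert (hE b) (hn (cl b)) (hG b) hθ hθ' false
  simp only [Bool.not_true, Bool.not_false, ← hτ] at hx1 hy1
  have hy1' : ∀ b, Cert (XX O c N Km lab K0 m1 b false ω) (XX O c N Km lab K0 m1 b true ω)
        (tkN O c N b) (MX O Km K0 m1 false ω) K
        (fun u v => SS O c N (S (cl b)) ix K0 m1 b v u ω) (x' b) (e' b)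
        ((1 - 4 * δ) * D (cl b)) (Dt (cl b) / 2) ((1 + 4 * δ) * D (cl b)) T0
        (ρ * Dt (cl b) / 12) (Dt (cl b) / 8) (τ (cl b)) := by
    intro b
    have h1 := hy1 b
    have h2 : (fun u y => SS O c N (S (cl b)) ix K0 m1 b u y ω) =
        fun u v => SS O c N (S (cl b)) ix K0 m1 b v u ω := by
      funext u v
      exact propext (SS_comm b u v)
    rw [h2] at h1
    exact h1
  have k3 : ∀ b, ∀ u ∈ XX O c N Km lab K0 m1 b true ω, u ∉ tkN O c N b →
      N b u ∈ XX O c N Km lab K0 m1 b false ω ∧ N b u ∉ tkN O c N b ∧ N b (N b u) = u := by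
    intro b u hu hW
    have h := XX_N (hE b).NN hu hW
    rw [Bool.not_true] at h
    exact ⟨h.1, h.2, (hE b).NN b u⟩
  have k4 : ∀ b, ∀ u ∈ XX O c N Km lab K0 m1 b false ω, u ∉ tkN O c N b →
      N b u ∈ XX O c N Km lab K0 m1 b true ω ∧ N b u ∉ tkN O c N b ∧ N b (N b u) = u := by
    intro b u hu hW
    have h := XX_N (hE b).NN hu hW
    rw [Bool.not_false] at h
    exact ⟨h.1, h.2, (hE b).NN b u⟩
  -- exits
  have hst : ∀ (b : Fin P) (s s' : Bool), ∀ u ∈ XX O c N Km lab K0 m1 b s' ω,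
      (u ∈ MX O Km K0 m1 s ω ↔ u ∈ stp (MM Km K0 m1 s ω) (nn (cl b))) := by
    intro b s s' u hu
    rw [mem_MX, mem_stp, hA.An]
    exact or_congr_right ⟨fun h => ⟨XX_A (hE b) hu, h⟩, fun h => h.2⟩
  have hstf : ∀ (b : Fin P) (s s' : Bool) (U : Finset V), U ⊆ XX O c N Km lab K0 m1 b s' ω →
      U.filter (fun u => u ∈ MX O Km K0 m1 s ω) =
        U.filter (fun u => u ∈ stp (MM Km K0 m1 s ω) (nn (cl b))) := by
    intro b s s' U hU
    exact filter_congr fun u hu => hst b s s' u (hU hu)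
  have hMMn : ∀ s, ∀ k, ∀ v ∈ MM Km K0 m1 s ω, nn k v = none := by
    intro s k v hv
    by_contra h
    exact ((hA.An k v).1 h).2 (hK.KO (mem_MM.1 hv).1)
  -- loads
  have hQ0 : ∀ b v, 0 ≤ Qf O c N (S (cl b)) lab (r (cl b)) L ρ δ Mr (6 * T0 / Dt (cl b)) θ θ' b v := by
    intro b v
    have hDt := (hn (cl b)).Dt0
    have hρ := (hn (cl b)).ρ0
    have hδ := (hn (cl b)).δ0
    obtain ⟨_, g2, _⟩ := q_bd (lab := lab) (b := b) (hE b) (hn (cl b)) hθ hθ' v
    have g3 := fun w => ((q_bd (lab := lab) (b := b) (hE b) (hn (cl b)) hθ hθ' w).2.2).1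
    have g4 : 0 ≤ 24 / ρ * HH (S (cl b)) (r (cl b))
        (q2f O c N (S (cl b)) lab (r (cl b)) L δ Mr (6 * T0 / Dt (cl b)) θ θ' b) v :=
      mul_nonneg (by positivity) (HH_nonneg g3 v)
    have g5 : 0 ≤ 4000 / ρ * δ * (6 * T0 / Dt (cl b)) := by positivity
    rw [Qf]
    linarith [g2.1]
  have hΨ : ∀ j, 3000 / ρ * (6 * T0 / Dt j) ≤ 1 / (4 * K0) := by
    intro j
    rw [le_div_iff₀ (by positivity)]
    linarith [h3 j]
  obtain ⟨DD, hDD⟩ : ∃ DD : Fin P → V → ℝ, ∀ b u, DD b u = e b u + q (cl b) := ⟨_, fun _ _ => rfl⟩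
  obtain ⟨DC, hDC⟩ : ∃ DC : Fin P → V → ℝ, ∀ b u, DC b u = e' b u + q (cl b) :=
    ⟨_, fun _ _ => rfl⟩
  have hDD0 : ∀ b, ∀ u ∈ XX O c N Km lab K0 m1 b true ω, 0 ≤ DD b u := fun b u hu => by
    rw [hDD]
    exact add_nonneg (hx2 b u hu) (hq0 _)
  have hDC0 : ∀ b, ∀ u ∈ XX O c N Km lab K0 m1 b false ω, 0 ≤ DC b u := fun b u hu => by
    rw [hDC]
    exact add_nonneg (hy2 b u hu) (hq0 _)
  have hcnt := cntX (Km := Km) (lab := lab) (m1 := m1) hA.tk1 v1
  rw [← hze] at hcnt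
  have hqs : ∀ (B : Finset (Fin P)) (v : V), (∀ b ∈ B, v ∈ XX O c N Km lab K0 m1 b true ω ∨
      v ∈ XX O c N Km lab K0 m1 b false ω) → ∑ b ∈ B, q (cl b) ≤ ε / 8 := by
    intro B v hB'
    refine (sum_le_card_nsmul B _ (ε / (8 * z)) fun b _ => hqb _).trans ?_
    rw [nsmul_eq_mul]
    have g1 : (#B : ℝ) ≤ z := by
      refine le_trans ?_ (hcnt v)
      norm_cast
      refine card_le_card fun b hb => ?_
      rw [mem_filter]
      exact ⟨mem_univ _, hB' b hb⟩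
    have g2 : z * (ε / (8 * z)) = ε / 8 := by
      field_simp
    rw [← g2]
    exact mul_le_mul_of_nonneg_right g1 (by positivity)
  have hsA : ∀ v, ∑ b with v ∈ XX O c N Km lab K0 m1 b true ω, DD b v ≤ 1 := by
    intro v
    simp only [hDD]
    rw [sum_add_distrib]
    have g1 := sumX (Km := Km) (lab := lab) (m1 := m1) hA.tk1 (Ψ := 1 / (4 * K0)) (by positivity)
      (fun b => hQ0 b v) (v2 v) true e
      (fun b hu => hx3 b v hu) (fun b hu => (hx4 b v hu).trans (hΨ _))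
    have g2 := hqs (univ.filter fun b => v ∈ XX O c N Km lab K0 m1 b true ω) v fun b hb =>
      Or.inl (mem_filter.1 hb).2
    have g3 : (K0 : ℝ) * (1 / (4 * K0)) = 1 / 4 := by
      field_simp
    rw [g3] at g1
    linarith
  have hsC : ∀ v, ∑ b with v ∈ XX O c N Km lab K0 m1 b false ω, DC b v ≤ 1 := by
    intro v
    simp only [hDC]
    rw [sum_add_distrib]
    have g1 := sumX (Km := Km) (lab := lab) (m1 := m1) hA.tk1 (Ψ := 1 / (4 * K0)) (by positivity)
      (fun b => hQ0 b v) (v2 v) false e'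
      (fun b hu => hy3 b v hu) (fun b hu => (hy4 b v hu).trans (hΨ _))
    have g2 := hqs (univ.filter fun b => v ∈ XX O c N Km lab K0 m1 b false ω) v fun b hb =>
      Or.inr (mem_filter.1 hb).2
    have g3 : (K0 : ℝ) * (1 / (4 * K0)) = 1 / 4 := by
      field_simp
    rw [g3] at g1
    linarith
  have htk : ∀ v, v ∉ O → ∀ b, v ∉ tkN O c N b := fun v hv b h => hv (mem_tk.1 h).1
  have hsA' : ∀ v, v ∉ O → ∑ b with v ∈ XX O c N Km lab K0 m1 b true ω, DD b v ≤ 3 * ε / 8 := by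
    intro v hv
    simp only [hDD]
    rw [sum_add_distrib]
    have g1 := sumX' (Km := Km) (lab := lab) (m1 := m1) (fun b => hQ0 b v) (v2 v) true e
      (fun b hu => hx3 b v hu)
    rw [filter_true_of_mem (s := univ.filter fun b => v ∈ XX O c N Km lab K0 m1 b true ω)
      (p := fun b => ¬ v ∈ tkN O c N b) fun b _ => htk v hv b] at g1
    have g2 := hqs (univ.filter fun b => v ∈ XX O c N Km lab K0 m1 b true ω) v fun b hb =>
      Or.inl (mem_filter.1 hb).2
    linarith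
  have hsC' : ∀ v, v ∉ O → ∑ b with v ∈ XX O c N Km lab K0 m1 b false ω, DC b v ≤ 3 * ε / 8 := by
    intro v hv
    simp only [hDC]
    rw [sum_add_distrib]
    have g1 := sumX' (Km := Km) (lab := lab) (m1 := m1) (fun b => hQ0 b v) (v2 v) false e'
      (fun b hu => hy3 b v hu)
    rw [filter_true_of_mem (s := univ.filter fun b => v ∈ XX O c N Km lab K0 m1 b false ω)
      (p := fun b => ¬ v ∈ tkN O c N b) fun b _ => htk v hv b] at g1
    have g2 := hqs (univ.filter fun b => v ∈ XX O c N Km lab K0 m1 b false ω) v fun b hb =>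
      Or.inr (mem_filter.1 hb).2
    linarith
  -- Hall
  have hDm : ∀ j, 0 ≤ (1 - 4 * δ) * D j := by
    intro j
    have hD := (hn j).D0
    have hδs := (hn j).δs
    exact mul_nonneg (by linarith) hD.le
  have hbA : ∀ b, ∀ U ⊆ XX O c N Km lab K0 m1 b true ω, ∀ Y : Finset V,
      (∀ y, y ∈ Y ↔ y ∈ XX O c N Km lab K0 m1 b false ω ∧
        ∃ u ∈ U, (u ∉ tkN O c N b ∧ N b u = y) ∨ SS O c N (S (cl b)) ix K0 m1 b u y ω) →
      (#U : ℝ) - #Y ≤ ∑ u ∈ U with u ∈ stp (MM Km K0 m1 true ω) (nn (cl b)), DD b u := by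
    intro b U hU Y hY
    have hD := (hn (cl b)).D0
    have hDt := (hn (cl b)).Dt0
    have hρ := (hn (cl b)).ρ0
    have hδ := (hn (cl b)).δ0
    rw [← hstf b true true U hU]
    have := def_star (Ex := 9 * δ * D (cl b)) (σ := ρ / (1000 * K0 ^ 2)) (hx1 b) (k3 b) (hτ0 _)
      (by positivity) (by positivity) (hDm _) (by positivity) (by positivity) (by positivity)
      (ex_ok (hn (cl b))) (by positivity) (sig_ok (hn (cl b))) (fun u hu _ => hx2 b u hu) U hU Y hY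
    refine this.trans (le_of_eq (sum_congr rfl fun u _ => ?_))
    rw [hDD, hq]
  have hbC : ∀ b, ∀ U ⊆ XX O c N Km lab K0 m1 b false ω, ∀ Y : Finset V,
      (∀ y, y ∈ Y ↔ y ∈ XX O c N Km lab K0 m1 b true ω ∧
        ∃ u ∈ U, (u ∉ tkN O c N b ∧ N b u = y) ∨ SS O c N (S (cl b)) ix K0 m1 b y u ω) →
      (#U : ℝ) - #Y ≤ ∑ u ∈ U with u ∈ stp (MM Km K0 m1 false ω) (nn (cl b)), DC b u := by
    intro b U hU Y hY
    have hD := (hn (cl b)).D0
    have hDt := (hn (cl b)).Dt0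
    have hρ := (hn (cl b)).ρ0
    have hδ := (hn (cl b)).δ0
    rw [← hstf b false false U hU]
    have := def_star (Ex := 9 * δ * D (cl b)) (σ := ρ / (1000 * K0 ^ 2)) (hy1' b) (k4 b) (hτ0 _)
      (by positivity) (by positivity) (hDm _) (by positivity) (by positivity) (by positivity)
      (ex_ok (hn (cl b))) (by positivity) (sig_ok (hn (cl b))) (fun u hu _ => hy2 b u hu) U hU Y hY
    refine this.trans (le_of_eq (sum_congr rfl fun u _ => ?_))
    rw [hDC, hq]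
  obtain ⟨F, hFA, hFC, hF1, hF2, hF3, hF4, hF5⟩ := hallC
    (fun b => XX O c N Km lab K0 m1 b true ω) (fun b => XX O c N Km lab K0 m1 b false ω) N
    (tkN O c N) (MM Km K0 m1 true ω) (MM Km K0 m1 false ω) nn cl (hMMn true) (hMMn false) MM_disj
    (fun b u y => SS O c N (S (cl b)) ix K0 m1 b u y ω) DD DC (fun b => XX_disj b true) k3 k4
    (fun b u hu _ => hDD0 b u hu) (fun b u hu _ => hDC0 b u hu) hbA hbC
    (fun u _ => hsA u) (fun u _ => hsC u)
  -- the matchings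
  obtain ⟨T, t1, t2, t3, t4, t5, t6⟩ := asm
    (fun b => univ.filter fun v => c v = some b ∨ v ∈ fzN O c N b)
    (fun b => XX O c N Km lab K0 m1 b true ω) (fun b => XX O c N Km lab K0 m1 b false ω)
    (tkN O c N) N (fun b u y => SS O c N (S (cl b)) ix K0 m1 b u y ω) F
    (fun b v => v ∈ stp (MM Km K0 m1 true ω) (nn (cl b)))
    (fun b v => v ∈ stp (MM Km K0 m1 false ω) (nn (cl b))) hA.mts.NN hA.mts.Nd
    (fun b b' u y _ _ h => ⟨fun h' => hA.NS b' u (cl b) (by rw [h']; exact h.1),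
      fun h' => hA.NS b' y (cl b) (by rw [h']; exact h.1.symm)⟩)
    (fun b b' u y _ _ h h' => by
      rcases h' with ⟨h2, h4, h5⟩ | ⟨h2, h4, h5⟩
      · exact SS_inj hix h2 h4 h h5
      · exact SS_inj hix h4 h2 h ((SS_comm b' y u).1 h5))
    (fun b v hv => by
      rw [mem_filter] at hv
      refine ⟨fun h => ?_, fun h => ?_⟩
      · exact hv.2.elim (XX_c h).1 (XX_c h).2
      · exact hv.2.elim (XX_c h).1 (XX_c h).2)
    (fun b v hv h1 h2 => by
      rw [mem_filter, not_and, not_or] at hv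
      obtain ⟨g1, g2, g3, g4⟩ := XX_out (hE b).NN (hv (mem_univ _)) h1 h2
      refine ⟨g1, ?_, g3, g4⟩
      rw [mem_filter]
      exact fun h => h.2.elim g2.1 g2.2) hFA hFC
  have t6' : ∀ b v, nz O c N b v → v ∉ XX O c N Km lab K0 m1 b true ω →
      v ∉ XX O c N Km lab K0 m1 b false ω → T b v = N b v := by
    intro b v h h1 h2
    refine t6 b v ?_ h1 h2
    rw [mem_filter]
    exact fun h' => h'.2.elim h.1 h.2
  have hdis : ∀ b v, v ∈ XX O c N Km lab K0 m1 b true ω →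
      v ∉ XX O c N Km lab K0 m1 b false ω := fun b v h1 h2 =>
    (Finset.disjoint_left.1 (XX_disj b true)) h1 h2
  -- missing colours
  have key : ∀ b v, nz O c N b v → T b v = v → ((v ∈ XX O c N Km lab K0 m1 b true ω ∧
      v ∈ stp (MM Km K0 m1 true ω) (nn (cl b))) ∨ (v ∈ XX O c N Km lab K0 m1 b false ω ∧
      v ∈ stp (MM Km K0 m1 false ω) (nn (cl b)))) ∧ F b v = v := by
    intro b v hnz hv
    by_cases h1 : v ∈ XX O c N Km lab K0 m1 b true ω
    · rw [t5 b v (Or.inl h1)] at hv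
      rcases hFA b v h1 with h2 | h2
      · exact ⟨Or.inl ⟨h1, h2.2⟩, hv⟩
      · exfalso
        have h3 := h2.1
        rw [hv] at h3
        exact hdis b v h1 h3
    · by_cases h2 : v ∈ XX O c N Km lab K0 m1 b false ω
      · rw [t5 b v (Or.inr h2)] at hv
        rcases hFC b v h2 with h3 | h3
        · exact ⟨Or.inr ⟨h2, h3.2⟩, hv⟩
        · exfalso
          have h4 := h3.1
          rw [hv] at h4
          exact h1 h4
      · exfalso
        rw [t6' b v hnz h1 h2] at hv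
        exact (XX_out (hE b).NN hnz h1 h2).1 hv
  have hOn : ∀ v ∈ O, ∀ k, nn k v = none := by
    intro v hv k
    by_contra h
    exact ((hA.An k v).1 h).2 hv
  have hOfz : ∀ b, ∀ v ∈ O, v ∉ fzN O c N b := fun b v hv h => (mem_fz.1 h).1 hv
  have keyO : ∀ b, ∀ v ∈ O, T b v = v → c v ≠ some b →
      v ∈ MM Km K0 m1 true ω ∪ MM Km K0 m1 false ω := by
    intro b v hv h1 h2
    rw [mem_union]
    obtain ⟨h3, _⟩ := key b v ⟨h2, hOfz b v hv⟩ h1
    rcases h3 with ⟨_, h3⟩ | ⟨_, h3⟩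
    · exact Or.inl ((mem_stp.1 h3).resolve_right fun h => h (hOn v hv _))
    · exact Or.inr ((mem_stp.1 h3).resolve_right fun h => h (hOn v hv _))
  have hcA : ∀ b v, v ∈ XX O c N Km lab K0 m1 b true ω ∨ v ∈ XX O c N Km lab K0 m1 b false ω →
      v ∉ tkN O c N b → cn N b v ω < 8 := by
    intro b v h h'
    rcases h with h | h
    · exact ac_cn (XX_ac h h')
    · exact ac_cn (XX_ac h h')
  -- gadgets
  have hnO : ∀ j i v, nn j v = some i → v ∉ O := by
    intro j i v h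
    exact ((hA.An j v).1 (by rw [h]; simp)).2
  have hcO : ∀ v, v ∉ O → ∀ b, c v ≠ some b := by
    intro v hv b h
    exact hv (hA.cO v (by rw [h]; simp))
  have hmss : ∀ b i, mss O nn c N T (cl b) i b ≤
      #{v ∈ XX O c N Km lab K0 m1 b true ω | nn (cl b) v = some i ∧ F b v = v} +
      #{v ∈ XX O c N Km lab K0 m1 b false ω | nn (cl b) v = some i ∧ F b v = v} := by
    intro b i
    rw [mss]
    norm_cast
    refine (card_le_card fun v hv => ?_).trans (card_union_le _ _)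
    rw [mem_filter] at hv
    obtain ⟨_, h1, h2, h3⟩ := hv
    obtain ⟨h4, h5⟩ := key b v ⟨hcO v (hnO _ _ _ h1) b, h3⟩ h2
    rw [mem_union, mem_filter, mem_filter]
    rcases h4 with ⟨h4, _⟩ | ⟨h4, _⟩
    · exact Or.inl ⟨h4, h1, h5⟩
    · exact Or.inr ⟨h4, h1, h5⟩
  have hcnt2 : ∀ b i, (#{v ∈ XX O c N Km lab K0 m1 b true ω | nn (cl b) v = some i} : ℝ) +
      #{v ∈ XX O c N Km lab K0 m1 b false ω | nn (cl b) v = some i} ≤ Ξ := by
    intro b i
    refine le_trans ?_ (hnd (cl b) i b rfl)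
    norm_cast
    rw [← card_union_of_disjoint]
    · refine card_le_card fun v hv => ?_
      rw [mem_union, mem_filter, mem_filter] at hv
      rw [mem_filter, mem_filter]
      rcases hv with ⟨h1, h2⟩ | ⟨h1, h2⟩
      · exact ⟨⟨mem_univ _, h2⟩, hcA b v (Or.inl h1) (htk v (hnO _ _ _ h2) b)⟩
      · exact ⟨⟨mem_univ _, h2⟩, hcA b v (Or.inr h1) (htk v (hnO _ _ _ h2) b)⟩
    · rw [Finset.disjoint_left]
      intro v h1 h2
      rw [mem_filter] at h1 h2
      exact hdis b v h1.1 h2.1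
  have hdA : ∀ b i, dem (fun b => XX O c N Km lab K0 m1 b true ω) (nn (cl b)) DD b i ≤
      #{v ∈ XX O c N Km lab K0 m1 b true ω | nn (cl b) v = some i} *
        (3000 / ρ * (6 * T0 / Dt (cl b)) + ε / (8 * z)) := by
    intro b i
    rw [dem, ← nsmul_eq_mul]
    refine sum_le_card_nsmul _ _ _ fun u hu => ?_
    rw [mem_filter] at hu
    rw [hDD]
    exact add_le_add (hx4 b u hu.1) (hqb _)
  have hdC : ∀ b i, dem (fun b => XX O c N Km lab K0 m1 b false ω) (nn (cl b)) DC b i ≤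
      #{v ∈ XX O c N Km lab K0 m1 b false ω | nn (cl b) v = some i} *
        (3000 / ρ * (6 * T0 / Dt (cl b)) + ε / (8 * z)) := by
    intro b i
    rw [dem, ← nsmul_eq_mul]
    refine sum_le_card_nsmul _ _ _ fun u hu => ?_
    rw [mem_filter] at hu
    rw [hDC]
    exact add_le_add (hy4 b u hu.1) (hqb _)
  have hsum : ∀ (X : Fin P → Finset V) (DX : Fin P → V → ℝ), (∀ b, ∀ u ∈ X b, 0 ≤ DX b u) →
      (∀ v, v ∉ O → ∑ b with v ∈ X b, DX b v ≤ 3 * ε / 8) → ∀ j i,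
      ∑ b with cl b = j, dem X (nn j) DX b i ≤
        3 * ε / 8 * (univ.filter fun v => nn j v = some i).card := by
    intro X DX h0 hs j i
    have g1 : ∑ b with cl b = j, dem X (nn j) DX b i =
        ∑ u ∈ univ.filter (fun v => nn j v = some i), ∑ b with cl b = j ∧ u ∈ X b, DX b u := by
      have e1 : ∀ b, dem X (nn j) DX b i = ∑ u ∈ univ.filter (fun v => nn j v = some i),
          if u ∈ X b then DX b u else 0 := by
        intro b
        rw [dem, ← sum_filter]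
        refine sum_congr ?_ fun _ _ => rfl
        ext u
        simp only [mem_filter, mem_univ, true_and]
        exact and_comm
      simp only [e1]
      rw [sum_comm]
      refine sum_congr rfl fun u _ => ?_
      rw [← sum_filter, filter_filter]
    rw [g1]
    refine (sum_le_card_nsmul _ _ (3 * ε / 8) fun u hu => ?_).trans (le_of_eq ?_)
    · rw [mem_filter] at hu
      refine (sum_le_sum_of_subset_of_nonneg (t := univ.filter fun b => u ∈ X b) ?_ ?_).trans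
        (hs u (hnO _ _ _ hu.2))
      · intro b hb
        rw [mem_filter] at hb ⊢
        exact ⟨hb.1, hb.2.2⟩
      · intro b hb _
        exact h0 b u (mem_filter.1 hb).2
    · rw [nsmul_eq_mul, mul_comm]
  refine ⟨T, ?_⟩
  refine ⟨t1, ?_, t3, ?_, ?_, ?_, ?_, ?_, ?_, ?_, ?_, ?_⟩
  · intro b v hv
    rcases t2 b v hv with h | ⟨_, _, h⟩ | ⟨_, _, h⟩
    · exact Or.inl h.symm
    · exact Or.inr h.1
    · exact Or.inr h.1.symm
  · intro b v hv
    exact t4 b v (mem_filter.2 ⟨mem_univ _, Or.inl hv⟩)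
  · intro b v hv
    exact t4 b v (mem_filter.2 ⟨mem_univ _, Or.inr hv⟩)
  · intro b v hv h1 h2
    rcases mem_union.1 (keyO b v hv h1 h2) with h3 | h3
    · exact (mem_MM.1 h3).1
    · exact (mem_MM.1 h3).1
  · intro v hv
    refine (card_le_card fun b hb => ?_).trans (hF1 v (hOn v hv))
    rw [mem_filter] at hb ⊢
    obtain ⟨h3, h4⟩ := key b v ⟨hb.2.2, hOfz b v hv⟩ hb.2.1
    exact ⟨mem_univ _, h3.imp (fun h => h.1) (fun h => h.1), h4⟩
  · intro v w b b' hv hw h1 h2 h3 h4 hvw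
    obtain ⟨b'', g1, g2, g3, g4⟩ := MM_kept (N := N) (c := c) (O := O) (lab := lab) hK.K3
      (keyO b v hv h1 h2) (keyO b' w hw h3 h4) hvw
    exact ⟨b'', by rw [t6' b'' v g2 g3 g4, g1]⟩
  · intro v
    have g1 : (univ.filter fun b => v ∉ fzN O c N b ∧ T b v ≠ N b v) ⊆
        (univ.filter fun b => v ∈ XX O c N Km lab K0 m1 b true ω ∨
          v ∈ XX O c N Km lab K0 m1 b false ω) ∪ univ.filter fun b => c v = some b := by
      intro b hb
      rw [mem_filter] at hb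
      rw [mem_union, mem_filter, mem_filter]
      by_contra h
      rw [not_or, not_and, not_and, not_or] at h
      obtain ⟨h1, h2⟩ := h
      obtain ⟨h3, h4⟩ := h1 (mem_univ _)
      exact hb.2.2 (t6' b v ⟨h2 (mem_univ _), hb.2.1⟩ h3 h4)
    have g2 : #(univ.filter fun b => c v = some b) ≤ 1 := by
      rw [card_le_one]
      intro b hb b' hb'
      rw [mem_filter] at hb hb'
      exact Option.some.inj (hb.2.symm.trans hb'.2)
    have g3 := (card_le_card g1).trans (card_union_le _ _)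
    have g4 := hcnt v
    have g5 : ((univ.filter fun b => v ∉ fzN O c N b ∧ T b v ≠ N b v).card : ℝ) ≤
        #{b | v ∈ XX O c N Km lab K0 m1 b true ω ∨ v ∈ XX O c N Km lab K0 m1 b false ω} + 1 := by
      exact_mod_cast g3.trans (Nat.add_le_add_left g2 _)
    linarith
  · intro j i b hb
    refine le_trans ?_ (hnd j i b hb)
    norm_cast
    refine card_le_card fun v hv => ?_
    rw [mem_filter] at hv
    rw [mem_filter, mem_filter]
    obtain ⟨_, h1, h2, h3⟩ := hv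
    refine ⟨⟨mem_univ _, h1⟩, ?_⟩
    have hvO := hnO _ _ _ h1
    refine hcA b v ?_ (htk v hvO b)
    by_contra h
    rw [not_or] at h
    exact h3 (t6' b v ⟨hcO v hvO b, h2⟩ h.1 h.2)
  · intro j i b hb
    subst hb
    have g1 := hmss b i
    have g2 := hF2 i b
    have g3 := hF3 i b
    have g4 := hdA b i
    have g5 := hdC b i
    have g6 := hcnt2 b i
    have hρ := (hn (cl b)).ρ0
    have hDt := (hn (cl b)).Dt0
    have g7 : 0 ≤ 3000 / ρ * (6 * T0 / Dt (cl b)) + ε / (8 * z) := by positivity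
    have g8 := mul_le_mul_of_nonneg_right g6 g7
    have g9 := hB (cl b)
    rw [add_mul] at g8
    linarith
  · intro j i
    have g1 : ∑ b with cl b = j, mss O nn c N T j i b ≤ ∑ b with cl b = j,
        ((#{v ∈ XX O c N Km lab K0 m1 b true ω | nn j v = some i ∧ F b v = v} : ℝ) +
          #{v ∈ XX O c N Km lab K0 m1 b false ω | nn j v = some i ∧ F b v = v}) := by
      refine sum_le_sum fun b hb => ?_
      rw [mem_filter] at hb
      have := hmss b i
      rw [hb.2] at this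
      exact this
    rw [sum_add_distrib] at g1
    have g2 := hF4 i j
    have g3 := hF5 i j
    have g4 := hsum (fun b => XX O c N Km lab K0 m1 b true ω) DD hDD0 hsA' j i
    have g5 := hsum (fun b => XX O c N Km lab K0 m1 b false ω) DC hDC0 hsC' j i
    have g6 : 0 ≤ ε * ((univ.filter fun v => nn j v = some i).card : ℝ) := by positivity
    linarith

end Out

end Pool.Agent.Work.MP_db9399_eg
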