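import Pool.Agent.Work.MP_db9399_eg.DEF
import Pool.Agent.Work.MP_db9399_en.APX
import Pool.Agent.Work.MP_db9399_en.LOAD

/-!
# MP_db9399, ENGINE: the good events of one colour, and the walk of one colour (helper89)
-/

set_option autoImplicit false

namespace Pool.Agent.Work.MP_db9399_eg

open Finset Classical
open Pool.Agent.Work.MP_db9399_all (nb)
open Pool.Agent.Work.MP_db9399_as.helper89
open Pool.Agent.Work.MP_db9399_sg (tkN tksN fzN resN)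
open Pool.Agent.Work.MP_db9399_en

universe u

section Defs

variable {V : Type u} [Fintype V] {P M : ℕ}
variable (O : Finset V) (c : V → Option (Fin P)) (N : Fin P → V → V) (S : SimpleGraph V) (Km : Finset V)
  (lab : Fin P → V → Bool) (ix : V × V → Fin P → ℕ) (K0 m1 : ℕ)

/-- generic neighbours on the side `s` -/
noncomputable def NG (b : Fin P) (v : V) (s : Bool) (ω : Co V P → Fin M) : Finset V :=
  {w ∈ nb S v | ac O c N Km K0 m1 b w s ω ∧ gn K0 m1 v w ω}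

/-- neighbours on the side `s` along edges which picked `b` -/
noncomputable def NT (b : Fin P) (v : V) (s : Bool) (ω : Co V P → Fin M) : Finset V :=
  {w ∈ nb S v | ac O c N Km K0 m1 b w s ω ∧ pk ix K0 m1 b v w ω}

/-- blocked neighbours -/
noncomputable def BB (b : Fin P) (v : V) (ω : Co V P → Fin M) : Finset V :=
  {w ∈ nb S v | cn N b w ω < 8 ∧ bl N b v w ω}

/-- the neighbourhood sums of `g` are right -/
def AV (r : ℕ) (D δ : ℝ) (b : Fin P) (ω : Co V P → Fin M) (g : V → ℝ) (Φ : ℝ) : Prop :=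
  ∀ v s, |∑ w ∈ NG O c N S Km K0 m1 b v s ω, g w - D * HH S r g v| ≤ δ * D * Φ

/-- number of token neighbours of `w` reached by picked edges -/
noncomputable def tn (b : Fin P) (s : Bool) (w : V) (ω : Co V P → Fin M) : ℝ :=
  #{z ∈ nb S w | z ∈ tksN O c N lab b s ∧ pk ix K0 m1 b w z ω}

/-- bound for the residuals of colour `b`; `Φ = 6 T0 / Dt` -/
noncomputable def qf (r L : ℕ) (δ Mr Φ : ℝ) (θ θ' : ℕ → ℝ) (b : Fin P) (v : V) : ℝ :=
  Mr / 3 * resN S r L θ θ' O c N lab b v + 200 * L * δ * Φ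

noncomputable def q1f (r L : ℕ) (δ Mr Φ : ℝ) (θ θ' : ℕ → ℝ) (b : Fin P) (v : V) : ℝ :=
  qf O c N S lab r L δ Mr Φ θ θ' b v + 2 * HH S r (qf O c N S lab r L δ Mr Φ θ θ' b) v + 12 * δ * Φ

noncomputable def q2f (r L : ℕ) (δ Mr Φ : ℝ) (θ θ' : ℕ → ℝ) (b : Fin P) (v : V) : ℝ :=
  qf O c N S lab r L δ Mr Φ θ θ' b v + 8 * HH S r (q1f O c N S lab r L δ Mr Φ θ θ' b) v + 144 * δ * Φ

/-- bound for the load of colour `b` -/
noncomputable def Qf (r L : ℕ) (ρ δ Mr Φ : ℝ) (θ θ' : ℕ → ℝ) (b : Fin P) (v : V) : ℝ :=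
  q1f O c N S lab r L δ Mr Φ θ θ' b v + 24 / ρ * HH S r (q2f O c N S lab r L δ Mr Φ θ θ' b) v +
    4000 / ρ * δ * Φ

/-- the good events of colour `b` -/
structure GdB (r T0 L : ℕ) (ρ D Dt δ Mr : ℝ) (θ θ' : ℕ → ℝ) (A K : Finset V) (b : Fin P)
    (ω : Co V P → Fin M) : Prop where
  a0 : AV O c N S Km K0 m1 r D δ b ω (fun _ => 1) 1
  a1 : AV O c N S Km K0 m1 r D δ b ω (fun v => if v ∈ K then 0 else 1) 1
  a2 : ∀ s, ∀ j, 2 ≤ j → j < 2 * L → AV O c N S Km K0 m1 r D δ b ω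
    (fun v => Mr / 3 * wlk S r (tksN O c N lab b s) j v) (T0 / D)
  a3 : AV O c N S Km K0 m1 r D δ b ω (qf O c N S lab r L δ Mr (6 * T0 / Dt) θ θ' b) (6 * T0 / Dt)
  a4 : AV O c N S Km K0 m1 r D δ b ω (q1f O c N S lab r L δ Mr (6 * T0 / Dt) θ θ' b)
    (4 * (6 * T0 / Dt))
  a5 : AV O c N S Km K0 m1 r D δ b ω (q2f O c N S lab r L δ Mr (6 * T0 / Dt) θ θ' b)
    (35 * (6 * T0 / Dt))
  e2 : ∀ v, (#(BB N S b v ω) : ℝ) ≤ δ * D
  e3 : ∀ v ∈ tkN O c N b, ∀ s, |(#(NT O c N S Km ix K0 m1 b v s ω) : ℝ) - Dt| ≤ δ * Dt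
  e4 : ∀ v, v ∉ tkN O c N b → ∀ s,
    |∑ w ∈ NG O c N S Km K0 m1 b v (!s) ω, tn O c N S lab ix K0 m1 b s w ω -
      D * Dt * (Mr / 3 * wlk S r (tksN O c N lab b s) 2 v)| ≤ δ * D * T0
  e5 : ∀ v ∈ A, v ∉ K → ∀ s, ρ * D / 12 ≤
    (#{w ∈ NG O c N S Km K0 m1 b v s ω | w ∈ MX O Km K0 m1 s ω} : ℝ)
  e5t : ∀ v, v ∉ K → v ∈ tkN O c N b → ∀ s, ρ * Dt / 12 ≤
    (#{w ∈ NT O c N S Km ix K0 m1 b v s ω | w ∈ MX O Km K0 m1 s ω} : ℝ)
  e6 : ∀ v ∈ tkN O c N b, ∀ s, Dt / 8 ≤ (#{w ∈ NT O c N S Km ix K0 m1 b v s ω | w ∉ K} : ℝ)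

/-- the sides of the walk from the tokens with label `t` -/
noncomputable def Zt (b : Fin P) (t : Bool) (j : ℕ) (ω : Co V P → Fin M) : Finset V :=
  if Even j then XX O c N Km lab K0 m1 b t ω else XX O c N Km lab K0 m1 b (!t) ω

/-- degree in the reserve graph of colour `b` -/
noncomputable def dgb (b : Fin P) (w : V) (ω : Co V P → Fin M) : ℝ :=
  if w ∈ XX O c N Km lab K0 m1 b true ω then
    #{v ∈ XX O c N Km lab K0 m1 b false ω | SS O c N S ix K0 m1 b w v ω}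
  else #{v ∈ XX O c N Km lab K0 m1 b true ω | SS O c N S ix K0 m1 b w v ω}

/-- the walk from the tokens with label `t` -/
noncomputable def fw (b : Fin P) (t : Bool) (ω : Co V P → Fin M) : ℕ → V → ℝ
  | 0 => fun v => if v ∈ tksN O c N lab b t then 1 else 0
  | j + 1 => fun v => ∑ w ∈ Zt O c N Km lab K0 m1 b t j ω with SS O c N S ix K0 m1 b w v ω,
      fw b t ω j w / dgb O c N S Km lab ix K0 m1 b w ω

end Defs

section Walk

variable {V : Type u} [Fintype V] {P M : ℕ} {G S : SimpleGraph V} {d r K0 T0 m1 L : ℕ}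
  {ρ D Dt δ Mr : ℝ}
  {O : Finset V} {c : V → Option (Fin P)} {N : Fin P → V → V} {A K Km : Finset V} {lab : Fin P → V → Bool}
  {ix : V × V → Fin P → ℕ} {ω : Co V P → Fin M} {b : Fin P}

/-- the set of generic reserve neighbours on the side `s` -/
noncomputable def NR (O : Finset V) (c : V → Option (Fin P)) (N : Fin P → V → V) (S : SimpleGraph V) (Km : Finset V)
    (K0 m1 : ℕ) (b : Fin P) (v : V) (s : Bool) (ω : Co V P → Fin M) : Finset V :=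
  {w ∈ NG O c N S Km K0 m1 b v s ω | ¬ bl N b v w ω}

theorem mem_NG {v w : V} {s : Bool} : w ∈ NG O c N S Km K0 m1 b v s ω ↔
    S.Adj v w ∧ ac O c N Km K0 m1 b w s ω ∧ gn K0 m1 v w ω := by
  rw [NG, mem_filter, mem_nb]

theorem mem_NT {v w : V} {s : Bool} : w ∈ NT O c N S Km ix K0 m1 b v s ω ↔
    S.Adj v w ∧ ac O c N Km K0 m1 b w s ω ∧ pk ix K0 m1 b v w ω := by
  rw [NT, mem_filter, mem_nb]

/-- generic vertex: generic neighbours in the reserve graph of `b` -/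
theorem gen_nb {v : V} (hv : v ∉ tkN O c N b) (s : Bool) :
    ({w ∈ XX O c N Km lab K0 m1 b s ω | w ∉ tkN O c N b ∧ SS O c N S ix K0 m1 b v w ω} : Finset V) =
      NR O c N S Km K0 m1 b v s ω := by
  ext w
  rw [mem_filter, NR, mem_filter, mem_NG, SS]
  constructor
  · rintro ⟨h1, h2, h3, h4⟩
    rcases h4 with h4 | h4
    · rcases h4.1 with h5 | h5
      · exact absurd h5 hv
      · exact absurd h5 h2
    · exact ⟨⟨h3, XX_ac h1 h2, h4.2.2.1⟩, h4.2.2.2⟩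
  · rintro ⟨⟨h1, h2, h3⟩, h4⟩
    exact ⟨mem_XX.2 (Or.inr h2), h2.2.1, h1, Or.inr ⟨hv, h2.2.1, h3, h4⟩⟩

/-- token: generic neighbours in the reserve graph of `b` -/
theorem tok_nb {v : V} (hv : v ∈ tkN O c N b) (s : Bool) :
    ({w ∈ XX O c N Km lab K0 m1 b s ω | w ∉ tkN O c N b ∧ SS O c N S ix K0 m1 b v w ω} : Finset V) =
      NT O c N S Km ix K0 m1 b v s ω := by
  ext w
  rw [mem_filter, mem_NT, SS]
  constructor
  · rintro ⟨h1, h2, h3, h4⟩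
    rcases h4 with h4 | h4
    · exact ⟨h3, XX_ac h1 h2, h4.2⟩
    · exact absurd hv h4.1
  · rintro ⟨h1, h2, h3⟩
    exact ⟨mem_XX.2 (Or.inr h2), h2.2.1, h1, Or.inl ⟨Or.inl hv, h3⟩⟩

/-- token neighbours -/
theorem tok_cnt (hE : E1 G S r K0 T0 ρ O c N A K Km b) (v : V) (s : Bool) :
    (#{w ∈ XX O c N Km lab K0 m1 b s ω | w ∈ tkN O c N b ∧ SS O c N S ix K0 m1 b v w ω} : ℝ) ≤ T0 := by
  refine le_trans ?_ (Nat.cast_le.2 (hE.tk2 v))
  norm_cast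
  refine card_le_card fun w hw => ?_
  rw [mem_filter] at hw ⊢
  exact ⟨mem_nb.2 hw.2.2.1, hw.2.1⟩

/-- sums over the reserve neighbours -/
theorem NR_sum {g : V → ℝ} {Φ : ℝ} (hg : ∀ v, 0 ≤ g v ∧ g v ≤ Φ) (hδD : 0 ≤ δ * D)
    (hB : ∀ v, (#(BB N S b v ω) : ℝ) ≤ δ * D)
    (ha : AV O c N S Km K0 m1 r D δ b ω g Φ) (v : V) (s : Bool) :
    |∑ w ∈ NR O c N S Km K0 m1 b v s ω, g w - D * HH S r g v| ≤ 2 * δ * D * Φ := by
  have hΦ : 0 ≤ Φ := (hg v).1.trans (hg v).2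
  have h1 : ∑ w ∈ NG O c N S Km K0 m1 b v s ω, g w = ∑ w ∈ NR O c N S Km K0 m1 b v s ω, g w +
      ∑ w ∈ NG O c N S Km K0 m1 b v s ω with bl N b v w ω, g w := by
    rw [NR, add_comm]
    exact (sum_filter_add_sum_filter_not _ _ _).symm
  have h2 : ∑ w ∈ NG O c N S Km K0 m1 b v s ω with bl N b v w ω, g w ≤ δ * D * Φ := by
    have g1 : ∑ w ∈ NG O c N S Km K0 m1 b v s ω with bl N b v w ω, g w ≤
        #{w ∈ NG O c N S Km K0 m1 b v s ω | bl N b v w ω} • Φ :=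
      sum_le_card_nsmul _ _ _ fun w _ => (hg w).2
    refine g1.trans ?_
    rw [nsmul_eq_mul]
    refine mul_le_mul_of_nonneg_right (le_trans ?_ (hB v)) hΦ
    norm_cast
    refine card_le_card fun w hw => ?_
    rw [mem_filter, mem_NG] at hw
    rw [BB, mem_filter, mem_nb]
    exact ⟨hw.1.1, ac_cn hw.1.2.1, hw.2⟩
  have h3 : 0 ≤ ∑ w ∈ NG O c N S Km K0 m1 b v s ω with bl N b v w ω, g w :=
    sum_nonneg fun w _ => (hg w).1
  have h4 := ha v s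
  rw [h1] at h4
  rw [abs_le] at h4 ⊢
  constructor <;> nlinarith [h4.1, h4.2]

end Walk

end Pool.Agent.Work.MP_db9399_eg
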