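import Pool.Agent.Work.MP_db9399_eg.LOCDEF

/-!
# MP_db9399, ENGN: locality of the good event (helper89)
-/

set_option autoImplicit false

namespace Pool.Agent.Work.MP_db9399_eg

open Finset Classical
open Pool.Agent.Work.MP_db9399_all (nb pr DepOnI)
open Pool.Agent.Work.MP_db9399_sg (tkN tksN fzN resN)
open Pool.Agent.Work.MP_db9399_en

universe u

attribute [-instance] instDecidableEqSum

section Loc

variable {V : Type u} [Fintype V] {P M : ℕ} {G S : SimpleGraph V} {d r K0 T0 m1 L : ℕ}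
  {ρ D Dt δ Mr : ℝ}
  {O : Finset V} {c : V → Option (Fin P)} {N : Fin P → V → V} {Ac K Km : Finset V} {lab : Fin P → V → Bool}
  {ix : V × V → Fin P → ℕ} {θ θ' : ℕ → ℝ} {ω ω' : Co V P → Fin M} {v : V} {b : Fin P}

theorem N_b1 (hE : E1 G S r K0 T0 ρ O c N Ac K Km b) (b : Fin P) (w : V) : N b w ∈ b1 G w := by
  rw [mem_b1]
  by_cases h : N b w = w
  · exact Or.inl h
  · exact Or.inr (hE.NG b w h)

theorem S_b1 (hE : E1 G S r K0 T0 ρ O c N Ac K Km b) {v w : V} (h : S.Adj v w) : w ∈ b1 G v :=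
  mem_b1.2 (Or.inr (hE.hSG h))

theorem loc_cn (hE : E1 G S r K0 T0 ρ O c N Ac K Km b) (h : ∀ j ∈ Qs G v, ω j = ω' j) (b : Fin P)
    {w : V} (hw : w ∈ b2 G v) : cn N b w ω = cn N b w ω' := by
  rw [cn, cn, h]
  rw [mem_Qs1]
  rcases rp_mem N b w with h1 | h1
  · rw [h1]
    exact b2_sub hw
  · rw [h1]
    exact b3_of hw (N_b1 hE b w)

theorem loc_st (h : ∀ j ∈ Qs G v, ω j = ω' j) {w : V} (hw : w ∈ b3 G v) : st w ω = st w ω' := by
  rw [st, st, h]
  exact mem_Qs2.2 hw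

theorem loc_eg (h : ∀ j ∈ Qs G v, ω j = ω' j) {x y : V} (hx : x ∈ b3 G v) (hy : y ∈ b3 G v) :
    eg x y ω = eg x y ω' := by
  rw [eg, eg, h]
  rcases ep_mem x y with h1 | h1
  · rw [h1]
    exact mem_Qs3.2 ⟨hx, hy⟩
  · rw [h1]
    exact mem_Qs3.2 ⟨hy, hx⟩

theorem loc_ac (hE : E1 G S r K0 T0 ρ O c N Ac K Km b) (h : ∀ j ∈ Qs G v, ω j = ω' j)
    {w : V} (hw : w ∈ b2 G v) (s : Bool) :
    ac O c N Km K0 m1 b w s ω ↔ ac O c N Km K0 m1 b w s ω' := by
  have h1 := loc_cn hE h b hw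
  have h2 := loc_st h (b2_sub hw)
  have h3 := loc_st h (b3_of hw (N_b1 hE b w))
  simp only [ac, dbl, h1, h2, h3]

theorem loc_NG (hE : E1 G S r K0 T0 ρ O c N Ac K Km b) (h : ∀ j ∈ Qs G v, ω j = ω' j)
    (s : Bool) : NG O c N S Km K0 m1 b v s ω = NG O c N S Km K0 m1 b v s ω' := by
  ext w
  rw [mem_NG, mem_NG]
  refine and_congr_right fun hw => ?_
  have h1 := b1_sub (S_b1 hE hw)
  have h2 := loc_ac (m1 := m1) hE h h1 s
  have h3 := loc_eg h (b2_sub (b1_sub (b1_self v))) (b2_sub h1)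
  simp only [gn, h2, h3]

theorem loc_NT (hE : E1 G S r K0 T0 ρ O c N Ac K Km b) (h : ∀ j ∈ Qs G v, ω j = ω' j)
    (s : Bool) : NT O c N S Km ix K0 m1 b v s ω = NT O c N S Km ix K0 m1 b v s ω' := by
  ext w
  rw [mem_NT, mem_NT]
  refine and_congr_right fun hw => ?_
  have h1 := b1_sub (S_b1 hE hw)
  have h2 := loc_ac (m1 := m1) hE h h1 s
  have h3 := loc_eg h (b2_sub (b1_sub (b1_self v))) (b2_sub h1)
  simp only [pk, h2, h3]

theorem loc_BB (hE : E1 G S r K0 T0 ρ O c N Ac K Km b) (h : ∀ j ∈ Qs G v, ω j = ω' j) :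
    BB N S b v ω = BB N S b v ω' := by
  ext w
  rw [BB, BB, mem_filter, mem_filter, mem_nb]
  refine and_congr_right fun hw => ?_
  have h1 := b1_sub (S_b1 hE hw)
  have h2 : ∀ b', cn N b' w ω = cn N b' w ω' := fun b' => loc_cn hE h b' h1
  have h3 : ∀ b', cn N b' v ω = cn N b' v ω' := fun b' => loc_cn hE h b' (b1_sub (b1_self v))
  simp only [bl, h2, h3]

theorem loc_MX (h : ∀ j ∈ Qs G v, ω j = ω' j) {w : V} (hw : w ∈ b3 G v) (s : Bool) :
    w ∈ MX O Km K0 m1 s ω ↔ w ∈ MX O Km K0 m1 s ω' := by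
  rw [mem_MX, mem_MX, mem_MM, mem_MM, loc_st h hw]

theorem loc_tn (hE : E1 G S r K0 T0 ρ O c N Ac K Km b) (h : ∀ j ∈ Qs G v, ω j = ω' j) (s : Bool) {w : V} (hw : w ∈ b1 G v) :
    tn O c N S lab ix K0 m1 b s w ω = tn O c N S lab ix K0 m1 b s w ω' := by
  rw [tn, tn]
  congr 2
  ext z
  rw [mem_filter, mem_filter, mem_nb]
  refine and_congr_right fun hz => ?_
  have h3 := loc_eg h (b2_sub (b1_sub hw)) (b2_sub (b2_of hw (S_b1 hE hz)))
  simp only [pk, h3]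

theorem loc_GdV (hE : E1 G S r K0 T0 ρ O c N Ac K Km b) (h : ∀ j ∈ Qs G v, ω j = ω' j) (hG : GdV O c N S Km lab ix K0 m1 r T0 L ρ D Dt δ Mr θ θ' Ac K v b ω) :
    GdV O c N S Km lab ix K0 m1 r T0 L ρ D Dt δ Mr θ θ' Ac K v b ω' := by
  have hNG := fun s => loc_NG (m1 := m1) hE h s
  have hNT := fun s => loc_NT (ix := ix) (m1 := m1) hE h s
  have hA : ∀ (g : V → ℝ) (Φ : ℝ), AVv O c N S Km K0 m1 r D δ b v ω g Φ →
      AVv O c N S Km K0 m1 r D δ b v ω' g Φ := by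
    intro g Φ hg s
    rw [← hNG s]
    exact hg s
  have hMM : ∀ s, ∀ w, S.Adj v w → (w ∈ MX O Km K0 m1 s ω ↔ w ∈ MX O Km K0 m1 s ω') := fun s w hw =>
    loc_MX h (b2_sub (b1_sub (S_b1 hE hw))) s
  refine ⟨hA _ _ hG.a0, hA _ _ hG.a1, fun s j hj => hA _ _ (hG.a2 s j hj), hA _ _ hG.a3,
    hA _ _ hG.a4, hA _ _ hG.a5, ?_, ?_, ?_, ?_, ?_, ?_⟩
  · rw [← loc_BB hE h]
    exact hG.e2
  · intro hv s
    rw [← hNT s]
    exact hG.e3 hv s
  · intro hv s
    have h1 := hG.e4 hv s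
    have h2 : ∑ w ∈ NG O c N S Km K0 m1 b v (!s) ω', tn O c N S lab ix K0 m1 b s w ω' =
        ∑ w ∈ NG O c N S Km K0 m1 b v (!s) ω, tn O c N S lab ix K0 m1 b s w ω := by
      rw [← hNG]
      refine sum_congr rfl fun w hw => ?_
      exact (loc_tn hE h s (S_b1 hE (mem_NG.1 hw).1)).symm
    rw [h2]
    exact h1
  · intro hvA hv s
    refine (hG.e5 hvA hv s).trans (le_of_eq ?_)
    congr 2
    ext w
    rw [mem_filter, mem_filter, ← hNG s]
    exact and_congr_right fun hw => hMM s w (mem_NG.1 hw).1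
  · intro hv hv' s
    refine (hG.e5t hv hv' s).trans (le_of_eq ?_)
    congr 2
    ext w
    rw [mem_filter, mem_filter, ← hNT s]
    exact and_congr_right fun hw => hMM s w (mem_NT.1 hw).1
  · intro hv s
    rw [← hNT s]
    exact hG.e6 hv s

/-- the events of all colours at a vertex -/
theorem dep_GdV {J : Type u} {SS : J → SimpleGraph V} {cl : Fin P → J} {A : J → Finset V}
    {rr : J → ℕ} {DD Dtt : J → ℝ}
    (hE : ∀ b, E1 G (SS (cl b)) (rr (cl b)) K0 T0 ρ O c N (A (cl b)) K Km b) (v : V) :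
    DepOnI (Qs G v) (fun ω : Co V P → Fin M => ∀ b, GdV O c N (SS (cl b)) Km lab ix K0 m1
      (rr (cl b)) T0 L ρ (DD (cl b)) (Dtt (cl b)) δ Mr θ θ' (A (cl b)) K v b ω) := by
  intro ω ω' h
  refine propext ⟨fun hG b => loc_GdV (hE b) h (hG b), fun hG b => loc_GdV (hE b) ?_ (hG b)⟩
  intro j hj
  exact (h j hj).symm

theorem dep_cn (hNG : ∀ b v, N b v ≠ v → G.Adj v (N b v)) (v : V) (F : (Fin P → Prop) → Prop) :
    DepOnI (Qs G v) (fun ω : Co V P → Fin M => F fun b => cn N b v ω < 8) := by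
  intro ω ω' h
  have h1 : ∀ b, cn N b v ω = cn N b v ω' := by
    intro b
    rw [cn, cn, h]
    rw [mem_Qs1]
    rcases rp_mem N b v with h1 | h1
    · rw [h1]
      exact b2_sub (b1_sub (b1_self v))
    · rw [h1]
      by_cases h2 : N b v = v
      · rw [h2]
        exact b2_sub (b1_sub (b1_self v))
      · exact b2_sub (b1_sub (mem_b1.2 (Or.inr (hNG b v h2))))
  simp only [h1]

/-- the coins of the vertices of `X` in the colours of `B` -/
noncomputable def Qn (N : Fin P → V → V) (B : Finset (Fin P)) (X : Finset V) :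
    Finset (Co V P) := (B ×ˢ X).image fun p => Sum.inl (p.1, rp N p.1 p.2)

theorem Qn_card (B : Finset (Fin P)) (X : Finset V) : #(Qn N B X) ≤ P * #X := by
  refine card_image_le.trans ?_
  rw [card_product]
  refine Nat.mul_le_mul_right _ ?_
  have := card_le_univ B
  rwa [Fintype.card_fin] at this

theorem dep_node (B : Finset (Fin P)) (X : Finset V) (Ξ : ℝ) : DepOnI (Qn N B X)
    (fun ω : Co V P → Fin M => ∀ b ∈ B, (#{w ∈ X | cn N b w ω < 8} : ℝ) ≤ Ξ) := by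
  intro ω ω' h
  have h1 : ∀ b ∈ B, ({w ∈ X | cn N b w ω < 8} : Finset V) = {w ∈ X | cn N b w ω' < 8} := by
    intro b hb
    refine filter_congr fun w hw => ?_
    rw [cn, cn, h _ (mem_image.2 ⟨(b, w), mem_product.2 ⟨hb, hw⟩, rfl⟩)]
  refine propext (forall_congr' fun b => forall_congr' fun hb => ?_)
  rw [h1 b hb]

/-- few nodes contain a given coin -/
theorem Qn_mem (hN : ∀ b v, N b (N b v) = v) {B : Finset (Fin P)} {X : Finset V} {b : Fin P}
    {x : V} (h : (Sum.inl (b, x) : Co V P) ∈ Qn N B X) : b ∈ B ∧ (x ∈ X ∨ N b x ∈ X) := by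
  rw [Qn, mem_image] at h
  obtain ⟨p, hp, he⟩ := h
  rw [Sum.inl.injEq, Prod.mk.injEq] at he
  obtain ⟨h1, h2⟩ := mem_product.1 hp
  obtain ⟨h3, h4⟩ := he
  rw [h3] at h1 h4
  refine ⟨h1, ?_⟩
  rcases rp_mem N b p.2 with h5 | h5
  · rw [h5] at h4
    rw [← h4]
    exact Or.inl h2
  · rw [h5] at h4
    rw [← h4, hN]
    exact Or.inr h2

theorem Qn_inl {B : Finset (Fin P)} {X : Finset V} {y : Co V P} (h : y ∈ Qn N B X) :
    ∃ b x, y = Sum.inl (b, x) := by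
  rw [Qn, mem_image] at h
  obtain ⟨p, _, he⟩ := h
  exact ⟨_, _, he.symm⟩

end Loc

end Pool.Agent.Work.MP_db9399_eg
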