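import Pool.Agent.Work.MP_db9399_eg.EVT3
import Pool.Agent.Work.MP_db9399_en.LOC

/-!
# MP_db9399, ENGN: the good event at one vertex; the numbers (helper89)
-/

set_option autoImplicit false

namespace Pool.Agent.Work.MP_db9399_eg

open Finset Classical
open Pool.Agent.Work.MP_db9399_all (nb pr DepOnI)
open Pool.Agent.Work.MP_db9399_sg (tkN tksN fzN resN)
open Pool.Agent.Work.MP_db9399_en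

universe u

attribute [-instance] instDecidableEqSum

section Defs

variable {V : Type u} [Fintype V] {P M : ℕ}

variable (O : Finset V) (c : V → Option (Fin P)) (N : Fin P → V → V) (S : SimpleGraph V)
  (Km : Finset V) (lab : Fin P → V → Bool) (ix : V × V → Fin P → ℕ) (K0 m1 : ℕ)

/-- `AV` at one vertex -/
def AVv (r : ℕ) (D δ : ℝ) (b : Fin P) (v : V) (ω : Co V P → Fin M) (g : V → ℝ) (Φ : ℝ) : Prop :=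
  ∀ s, |∑ w ∈ NG O c N S Km K0 m1 b v s ω, g w - D * HH S r g v| ≤ δ * D * Φ

/-- the good event of colour `b` at the vertex `v` -/
structure GdV (r T0 L : ℕ) (ρ D Dt δ Mr : ℝ) (θ θ' : ℕ → ℝ) (A K : Finset V) (v : V) (b : Fin P)
    (ω : Co V P → Fin M) : Prop where
  a0 : AVv O c N S Km K0 m1 r D δ b v ω (fun _ => 1) 1
  a1 : AVv O c N S Km K0 m1 r D δ b v ω (fun v => if v ∈ K then 0 else 1) 1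
  a2 : ∀ s, ∀ j : Fin (2 * L), 2 ≤ (j : ℕ) → AVv O c N S Km K0 m1 r D δ b v ω
    (fun v => Mr / 3 * wlk S r (tksN O c N lab b s) j v) (T0 / D)
  a3 : AVv O c N S Km K0 m1 r D δ b v ω (qf O c N S lab r L δ Mr (6 * T0 / Dt) θ θ' b)
    (6 * T0 / Dt)
  a4 : AVv O c N S Km K0 m1 r D δ b v ω (q1f O c N S lab r L δ Mr (6 * T0 / Dt) θ θ' b)
    (4 * (6 * T0 / Dt))
  a5 : AVv O c N S Km K0 m1 r D δ b v ω (q2f O c N S lab r L δ Mr (6 * T0 / Dt) θ θ' b)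
    (35 * (6 * T0 / Dt))
  e2 : (#(BB N S b v ω) : ℝ) ≤ δ * D
  e3 : v ∈ tkN O c N b → ∀ s, |(#(NT O c N S Km ix K0 m1 b v s ω) : ℝ) - Dt| ≤ δ * Dt
  e4 : v ∉ tkN O c N b → ∀ s,
    |∑ w ∈ NG O c N S Km K0 m1 b v (!s) ω, tn O c N S lab ix K0 m1 b s w ω -
      D * Dt * (Mr / 3 * wlk S r (tksN O c N lab b s) 2 v)| ≤ δ * D * T0
  e5 : v ∈ A → v ∉ K → ∀ s, ρ * D / 12 ≤
    (#{w ∈ NG O c N S Km K0 m1 b v s ω | w ∈ MX O Km K0 m1 s ω} : ℝ)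
  e5t : v ∉ K → v ∈ tkN O c N b → ∀ s, ρ * Dt / 12 ≤
    (#{w ∈ NT O c N S Km ix K0 m1 b v s ω | w ∈ MX O Km K0 m1 s ω} : ℝ)
  e6 : v ∈ tkN O c N b → ∀ s, Dt / 8 ≤ (#{w ∈ NT O c N S Km ix K0 m1 b v s ω | w ∉ K} : ℝ)

end Defs

/-- **NUM2**: the numbers; `m1`, `M`, `δ`, `ξ` do not depend on the class (`P`, `r`) -/
def Stmt_NUM2 : Prop :=
  ∃ d₀ : ℕ, ∀ (d K0 T0 L : ℕ) (ρ ε : ℝ), d₀ ≤ d → 1 ≤ K0 → 1 ≤ T0 → 1 ≤ L → ρ ≤ 1 → 0 < ε →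
    ε ≤ 1 → (K0 : ℝ) ≤ (d : ℝ) ^ (1 / 2500 : ℝ) →
    (T0 : ℝ) ≤ (d : ℝ) ^ (1 / 2500 : ℝ) → (L : ℝ) ≤ (d : ℝ) ^ (1 / 2500 : ℝ) →
    (d : ℝ) ^ (-(1 / 2500) : ℝ) ≤ ρ → (d : ℝ) ^ (-(1 / 2500) : ℝ) ≤ ε →
    ∃ (m1 M : ℕ) (δ ξ : ℝ), M = 4 * (K0 * m1) ∧ 2 ≤ m1 ∧ 0 < ξ ∧ ξ ≤ K0 * d / M ∧
      16 * (K0 * d) / M ≤ (d : ℝ) ^ (1 - 1 / 2500 : ℝ) ∧
      10 ^ 6 * ((K0 : ℝ) * d + 1) ^ 11 * Real.exp (-ξ) ≤ 1 ∧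
      ∀ (P r : ℕ), P ≤ 2 * d → r ≤ d → (d : ℝ) ^ (1 - 1 / 2500 : ℝ) ≤ r →
        ∃ D Dt : ℝ, Nm r K0 T0 L P ρ D Dt δ M ∧ Nx M r K0 T0 m1 P ρ δ ∧
          3 * 10 ^ 7 * (K0 * (L * δ * (6 * T0 / Dt) * P)) ≤ M * ρ * ε ∧
          K0 * (3000 / ρ * (6 * T0 / Dt)) ≤ 1 / 4 ∧
          4 * 10 ^ 9 * (48 * d / M + K0) * L * K0 ^ 6 * T0 * δ ≤ ρ ^ 2 * D * ε ∧
          32 * (K0 * d) / M * (3000 / ρ * (6 * T0 / Dt)) + K0 + 4 ≤ (d : ℝ) ^ (1 / 250 : ℝ) ∧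
          48 * d / M + K0 + 1 ≤ (d : ℝ) ^ (-(1 / 2500) : ℝ) * r ∧
          32 * ξ * (1000 / ρ * (6 * T0 / Dt)) ≤ ε ∧
          ξ ≤ δ ^ 2 * D / 64 ∧ ξ ≤ δ ^ 2 * Dt / 64 ∧ ξ ≤ ρ ^ 2 * D / 9216 ∧
          ξ ≤ ρ ^ 2 * Dt / 9216 ∧ ξ ≤ Dt / 4096 ∧ ξ ≤ δ * D / 16 ∧ ξ ≤ 2 * r / M

end Pool.Agent.Work.MP_db9399_eg
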